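import Pool.Agent.Helper50.CG.Chern

/-! The two alphabets: signs (`ZMod 2`) and phases (`ZMod 0 = ℤ`). -/

set_option autoImplicit false
set_option linter.unusedSectionVars false

open Finset

namespace Pool.Agent.Helper50.CG

/-- the character of `ZMod m` with the value `u` at `1` -/
noncomputable def zchar (m : ℕ) (u : Circle) (hu : u ^ m = 1) : AddChar (ZMod m) Circle :=
  AddChar.toAddMonoidHomEquiv.symm
    (ZMod.lift m ⟨zmultiplesHom (Additive Circle) (Additive.ofMul u), by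
      rw [zmultiplesHom_apply, natCast_zsmul, ← ofMul_pow, hu, ofMul_one]⟩)

theorem zchar_one (m : ℕ) (u : Circle) (hu : u ^ m = 1) : zchar m u hu 1 = u := by
  unfold zchar
  rw [AddChar.coe_toAddMonoidHomEquiv_symm, Function.comp_apply]
  have h1 : (1 : ZMod m) = ((1 : ℤ) : ZMod m) := by simp
  rw [h1, ZMod.lift_coe]
  simp

/-- the product character -/
noncomputable def pchar {ι : Type} [Fintype ι] [DecidableEq ι] (m : ι → ℕ) (u : ι → Circle)
    (hu : ∀ i, u i ^ m i = 1) : AddChar (∀ i, ZMod (m i)) Circle where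
  toFun z := ∏ i, zchar (m i) (u i) (hu i) (z i)
  map_zero_eq_one' := by simp
  map_add_eq_mul' a b := by
    simp [AddChar.map_add_eq_mul, Finset.prod_mul_distrib]

theorem pchar_single {ι : Type} [Fintype ι] [DecidableEq ι] (m : ι → ℕ) (u : ι → Circle)
    (hu : ∀ i, u i ^ m i = 1) (i : ι) : pchar m u hu (Pi.single i 1) = u i := by
  show ∏ j, zchar (m j) (u j) (hu j) ((Pi.single i 1 : ∀ i, ZMod (m i)) j) = u i
  rw [Finset.prod_eq_single i]
  · rw [Pi.single_eq_same, zchar_one]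
  · intro j _ hj
    rw [Pi.single_eq_of_ne hj, AddChar.map_zero_eq_one]
  · intro h; exact absurd (Finset.mem_univ i) h

/-- probabilities: `q` on `ℤ = ZMod 0`, `(1 - p, p)` on `ZMod 2` -/
noncomputable def PZ (q : ℤ → ℝ) (p : ℝ) : (m : ℕ) → ZMod m → ℝ
  | 0 => q
  | (_ + 1) => fun a => if a = 0 then 1 - p else p

/-- supports -/
def TZ (T : Finset ℤ) : (m : ℕ) → Finset (ZMod m)
  | 0 => T
  | (_ + 1) => Finset.univ

/-- the conditions on the parameters -/
structure Para (q : ℤ → ℝ) (T : Finset ℤ) (p lam L : ℝ) : Prop where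
  qpos : ∀ k ∈ T, 0 < q k
  qzero : ∀ k, k ∉ T → q k = 0
  qone : ∑ k ∈ T, q k = 1
  ppos : 0 < p
  plt : p < 1
  qcorr : lam ≤ ∑ k ∈ T, Real.sqrt (q k) * Real.sqrt (q (k + 1))
  pcorr : lam ≤ 2 * (Real.sqrt p * Real.sqrt (1 - p))
  qL : ∀ k ∈ T, -Real.log (q k) ≤ L
  pL : -Real.log p ≤ L
  pL' : -Real.log (1 - p) ≤ L

/-- entropy of `q` -/
noncomputable def Hq (q : ℤ → ℝ) (T : Finset ℤ) : ℝ := ∑ k ∈ T, q k * (-Real.log (q k))
/-- entropy of `(p, 1 - p)` -/
noncomputable def hp (p : ℝ) : ℝ := p * (-Real.log p) + (1 - p) * (-Real.log (1 - p))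

variable {q : ℤ → ℝ} {T : Finset ℤ} {p lam L : ℝ}

theorem univ_two (f : ZMod 2 → ℝ) : ∑ a : ZMod 2, f a = f 0 + f 1 := by
  exact Fin.sum_univ_two f

theorem Para.alph (h : Para q T p lam L) {ι : Type} (m : ι → ℕ) (hm : ∀ i, m i = 0 ∨ m i = 2) :
    Alph (fun i => PZ q p (m i)) (fun i => TZ T (m i)) where
  pos i a ha := by
    have key : ∀ (m : ℕ), (m = 0 ∨ m = 2) → ∀ a ∈ TZ T m, 0 < PZ q p m a := by
      intro m hm a ha
      rcases hm with rfl | rfl
      · exact h.qpos a ha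
      · show 0 < (if a = 0 then 1 - p else p)
        split_ifs
        · linarith [h.plt]
        · exact h.ppos
    exact key (m i) (hm i) a ha
  zero i a ha := by
    have key : ∀ (m : ℕ), (m = 0 ∨ m = 2) → ∀ a, a ∉ TZ T m → PZ q p m a = 0 := by
      intro m hm a ha
      rcases hm with rfl | rfl
      · exact h.qzero a ha
      · exact absurd (Finset.mem_univ a) ha
    exact key (m i) (hm i) a ha
  one i := by
    have key : ∀ (m : ℕ), (m = 0 ∨ m = 2) → ∑ a ∈ TZ T m, PZ q p m a = 1 := by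
      intro m hm
      rcases hm with rfl | rfl
      · exact h.qone
      · show ∑ a : ZMod 2, (if a = 0 then 1 - p else p) = 1
        rw [univ_two]
        simp
    exact key (m i) (hm i)

theorem Para.logs (h : Para q T p lam L) (m : ℕ) (hm : m = 0 ∨ m = 2) :
    ∀ a ∈ TZ T m, -Real.log (PZ q p m a) ≤ L := by
  intro a ha
  rcases hm with rfl | rfl
  · exact h.qL a ha
  · show -Real.log (if a = 0 then 1 - p else p) ≤ L
    split_ifs
    · exact h.pL'
    · exact h.pL

theorem Para.corrs (h : Para q T p lam L) (m : ℕ) (hm : m = 0 ∨ m = 2) :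
    lam ≤ ∑ a ∈ TZ T m, Real.sqrt (PZ q p m a) * Real.sqrt (PZ q p m (a + 1)) := by
  rcases hm with rfl | rfl
  · exact h.qcorr
  · show lam ≤ ∑ a : ZMod 2, Real.sqrt (if a = 0 then 1 - p else p) *
      Real.sqrt (if a + 1 = 0 then 1 - p else p)
    rw [univ_two]
    have h1 : ((1 : ZMod 2) + 1 = 0) := by decide
    have h2 : ((0 : ZMod 2) + 1 ≠ 0) := by decide
    have h3 : ((1 : ZMod 2) ≠ 0) := by decide
    rw [if_pos rfl, if_neg h2, if_neg h3, if_pos h1]
    refine h.pcorr.trans (le_of_eq ?_)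
    ring

theorem Para.ent (m : ℕ) (hm : m = 0 ∨ m = 2) :
    ∑ a ∈ TZ T m, PZ q p m a * (-Real.log (PZ q p m a)) = if m = 0 then Hq q T else hp p := by
  rcases hm with rfl | rfl
  · rfl
  · show ∑ a : ZMod 2, (if a = 0 then 1 - p else p) * (-Real.log (if a = 0 then 1 - p else p)) = _
    rw [univ_two]
    have h3 : ((1 : ZMod 2) ≠ 0) := by decide
    rw [if_pos rfl, if_neg h3, if_neg (by norm_num)]
    unfold hp
    ring

/-- the bound for vectors of signs and phases -/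
theorem phase_bound (q : ℤ → ℝ) (T : Finset ℤ) (p s lam L ε : ℝ) (h : Para q T p lam L)
    (hs0 : 0 ≤ s) (hs : s < lam) (hs1 : s ≤ 1) (hL : 1 ≤ L) (hε : 0 < ε) :
    ∃ K : ℝ, 0 < K ∧ ∀ (ι : Type) [Fintype ι] (m : ι → ℕ), (∀ i, m i = 0 ∨ m i = 2) →
      ∀ w : ι → ℝ, (∀ i, 0 ≤ w i) → ∑ i, w i = 1 →
      ∀ (α : Type) (X : Finset α) (u : α → ι → Circle), (∀ x i, u x i ^ m i = 1) →
      (∀ x ∈ X, ∀ y ∈ X, x ≠ y →
        ∑ i, w i * ((u x i : ℂ) * (starRingEnd ℂ) (u y i : ℂ)).re ≤ s) →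
      (X.card : ℝ) ≤ K * Real.exp ((∑ i, if m i = 0 then Hq q T else hp p) +
        ε * Fintype.card ι) := by
  classical
  obtain ⟨K, hK, hb⟩ := prod_bound s lam L ε hs0 hs hs1 hL hε
  refine ⟨K, hK, ?_⟩
  intro ι _ m hm w hw hw1 α X u hu hX
  have := hb ι (fun i => ZMod (m i)) (fun i => PZ q p (m i)) (fun i => TZ T (m i)) (fun _ => 1)
    (h.alph m hm) (fun i => h.logs (m i) (hm i)) (fun i => h.corrs (m i) (hm i)) w hw hw1 α X
    (fun x => pchar m (u x) (hu x)) (by
      intro x hx y hy hxy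
      refine (le_of_eq ?_).trans (hX x hx y hy hxy)
      refine Finset.sum_congr rfl fun i _ => ?_
      unfold rr
      rw [pchar_single, pchar_single])
  refine this.trans (le_of_eq ?_)
  congr 3
  refine Finset.sum_congr rfl fun i _ => ?_
  exact Para.ent (m i) (hm i)

end Pool.Agent.Helper50.CG
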