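import Pool.Agent.Helper50.CG.Prod

/-! Typical sets. -/

set_option autoImplicit false
set_option linter.unusedSectionVars false

open Finset

namespace Pool.Agent.Helper50.CG

variable {ι : Type} [Fintype ι] [DecidableEq ι] {G : ι → Type} [∀ i, AddCommGroup (G i)]
variable {P : ∀ i, G i → ℝ} {t : ∀ i, Finset (G i)}

/-- entropy of the factor -/
noncomputable def HH (P : ∀ i, G i → ℝ) (t : ∀ i, Finset (G i)) (i : ι) : ℝ :=
  ∑ a ∈ t i, P i a * (-Real.log (P i a))

theorem Alph.le_one (h : Alph P t) (i : ι) (a : G i) : P i a ≤ 1 := by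
  by_cases ha : a ∈ t i
  · rw [← h.one i]
    exact Finset.single_le_sum (f := fun a => P i a) (fun b _ => h.nonneg i b) ha
  · rw [h.zero i a ha]; norm_num

theorem Alph.mgf_le (h : Alph P t) (i : ι) (L τ : ℝ) (hL : ∀ a ∈ t i, -Real.log (P i a) ≤ L)
    (hτ : 0 ≤ τ) (hτL : τ * L ≤ 1) :
    ∑ a ∈ t i, P i a * Real.exp (τ * -Real.log (P i a)) ≤ Real.exp (τ * HH P t i + τ ^ 2 * L ^ 2) := by
  have h1 : ∀ a ∈ t i, P i a * Real.exp (τ * -Real.log (P i a)) ≤
      P i a * (1 + τ ^ 2 * L ^ 2) + τ * (P i a * -Real.log (P i a)) := by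
    intro a ha
    have h0 : 0 ≤ -Real.log (P i a) := by
      have := Real.log_nonpos (h.nonneg i a) (h.le_one i a)
      linarith
    have h2 : 0 ≤ τ * -Real.log (P i a) := mul_nonneg hτ h0
    have h3 : τ * -Real.log (P i a) ≤ 1 := le_trans (mul_le_mul_of_nonneg_left (hL a ha) hτ) hτL
    have h4 := Real.abs_exp_sub_one_sub_id_le (x := τ * -Real.log (P i a))
      (by rw [abs_of_nonneg h2]; exact h3)
    have h5 := (abs_le.1 h4).2
    have h6 : (τ * -Real.log (P i a)) ^ 2 ≤ τ ^ 2 * L ^ 2 := by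
      rw [mul_pow]
      refine mul_le_mul_of_nonneg_left ?_ (by positivity)
      exact pow_le_pow_left₀ h0 (hL a ha) 2
    have h7 := h.nonneg i a
    nlinarith
  refine (Finset.sum_le_sum h1).trans ?_
  rw [Finset.sum_add_distrib, ← Finset.sum_mul, ← Finset.mul_sum, h.one i, one_mul]
  have := Real.add_one_le_exp (τ * HH P t i + τ ^ 2 * L ^ 2)
  unfold HH at this ⊢
  linarith

theorem Alph.log_PP (h : Alph P t) {x : ∀ i, G i} (hx : x ∈ Fintype.piFinset t) :
    -Real.log (PP P x) = ∑ i, -Real.log (P i (x i)) := by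
  unfold PP
  rw [Real.log_prod (fun i _ => (h.pos i _ (Fintype.mem_piFinset.1 hx i)).ne'), Finset.sum_neg_distrib]

open Classical in
/-- the typical set -/
noncomputable def typ (P : ∀ i, G i → ℝ) (t : ∀ i, Finset (G i)) (B : ℝ) : Finset (∀ i, G i) :=
  (Fintype.piFinset t).filter (fun x => Real.exp (-B) ≤ PP P x)

open Classical in
theorem Alph.mass_typ (h : Alph P t) (B τ : ℝ) (hτ : 0 ≤ τ) :
    ∑ x ∈ Fintype.piFinset t, (if x ∈ typ P t B then 0 else PP P x) ≤
      Real.exp (-(τ * B)) * ∏ i, ∑ a ∈ t i, P i a * Real.exp (τ * -Real.log (P i a)) := by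
  rw [Finset.prod_univ_sum, Finset.mul_sum]
  refine Finset.sum_le_sum fun x hx => ?_
  have hpos := h.PP_pos hx
  have h1 : ∏ i, P i (x i) * Real.exp (τ * -Real.log (P i (x i))) =
      PP P x * Real.exp (τ * -Real.log (PP P x)) := by
    rw [Finset.prod_mul_distrib, ← Real.exp_sum, ← Finset.mul_sum, ← h.log_PP hx]
    rfl
  rw [h1]
  split_ifs with hS
  · positivity
  · have h2 : PP P x < Real.exp (-B) := by
      by_contra h3
      exact hS (Finset.mem_filter.2 ⟨hx, not_lt.1 h3⟩)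
    have h3 : B ≤ -Real.log (PP P x) := by
      have := Real.log_le_log hpos h2.le
      rw [Real.log_exp] at this
      linarith
    have h4 : Real.exp (-(τ * B)) * (PP P x * Real.exp (τ * -Real.log (PP P x))) =
        PP P x * Real.exp (τ * (-Real.log (PP P x) - B)) := by
      rw [mul_left_comm, ← Real.exp_add]
      congr 2
      ring
    rw [h4]
    have h5 : 1 ≤ Real.exp (τ * (-Real.log (PP P x) - B)) :=
      Real.one_le_exp (mul_nonneg hτ (by linarith))
    nlinarith

theorem Alph.card_typ (h : Alph P t) (B : ℝ) : ((typ P t B).card : ℝ) ≤ Real.exp B := by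
  classical
  have h1 : ∑ x ∈ typ P t B, Real.exp (-B) ≤ ∑ x ∈ typ P t B, PP P x :=
    Finset.sum_le_sum fun x hx => (Finset.mem_filter.1 hx).2
  have h2 : ∑ x ∈ typ P t B, PP P x ≤ 1 := by
    rw [← h.sum_PP]
    exact Finset.sum_le_sum_of_subset_of_nonneg (Finset.filter_subset _ _)
      (fun x _ _ => h.PP_nonneg x)
  rw [Finset.sum_const, nsmul_eq_mul] at h1
  have h3 : ((typ P t B).card : ℝ) * Real.exp (-B) ≤ 1 := h1.trans h2
  rw [Real.exp_neg] at h3
  have h4 := Real.exp_pos B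
  rwa [← div_eq_mul_inv, div_le_one h4] at h3

/-- **The bound on products.** -/
theorem prod_bound (s lam L ε : ℝ) (hs0 : 0 ≤ s) (hs : s < lam) (hs1 : s ≤ 1) (hL : 1 ≤ L)
    (hε : 0 < ε) : ∃ K : ℝ, 0 < K ∧
    ∀ (ι : Type) [Fintype ι] [DecidableEq ι] (G : ι → Type) [∀ i, AddCommGroup (G i)]
      (P : ∀ i, G i → ℝ) (t : ∀ i, Finset (G i)) (e : ∀ i, G i), Alph P t →
      (∀ i, ∀ a ∈ t i, -Real.log (P i a) ≤ L) → (∀ i, lam ≤ corr P t e i) →
      ∀ w : ι → ℝ, (∀ i, 0 ≤ w i) → ∑ i, w i = 1 →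
      ∀ (α : Type) (X : Finset α) (χ : α → AddChar (∀ i, G i) Circle),
      (∀ x ∈ X, ∀ y ∈ X, x ≠ y → ∑ i, w i * rr χ x y (Pi.single i (e i)) ≤ s) →
      (X.card : ℝ) ≤ K * Real.exp (∑ i, HH P t i + ε * Fintype.card ι) := by
  classical
  set τ : ℝ := min ε 1 / L ^ 2 with hτdef
  have hL2 : 0 < L ^ 2 := by positivity
  have hτ : 0 < τ := by rw [hτdef]; exact div_pos (lt_min hε one_pos) hL2
  have hτL : τ * L ≤ 1 := by
    rw [hτdef, div_mul_eq_mul_div, div_le_one hL2]
    have : min ε 1 * L ≤ 1 * L := mul_le_mul_of_nonneg_right (min_le_right _ _) (by linarith)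
    nlinarith
  have hτε : τ * L ^ 2 ≤ ε := by
    rw [hτdef, div_mul_cancel₀ _ hL2.ne']
    exact min_le_left _ _
  set η : ℝ := ((lam - s) / 8) ^ 2 with hη
  have hη0 : 0 < η := by rw [hη]; have : 0 < lam - s := by linarith
                         positivity
  have hηs : Real.sqrt η = (lam - s) / 8 := by
    rw [hη, Real.sqrt_sq (by linarith)]
  obtain ⟨B0, hB0⟩ : ∃ B0 : ℝ, Real.exp (-(τ * B0)) ≤ η := by
    refine ⟨-Real.log η / τ, ?_⟩
    rw [mul_div_cancel₀ _ hτ.ne', neg_neg, Real.exp_log hη0]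
  refine ⟨(1 - s + 1) * (4 / (3 * (lam - s))) * Real.exp B0, ?_, ?_⟩
  · have : 0 < lam - s := by linarith
    have h2 : 0 < 1 - s + 1 := by linarith
    positivity
  intro ι _ _ G _ P t e h hLb hc w hw hw1 α X χ hX
  set k : ℝ := (Fintype.card ι : ℝ) with hk
  have hk0 : 0 ≤ k := by rw [hk]; positivity
  set B : ℝ := ∑ i, HH P t i + ε * k + B0 with hB
  have hmass : ∑ x ∈ Fintype.piFinset t, (if x ∈ typ P t B then 0 else PP P x) ≤ η := by
    refine (h.mass_typ B τ hτ.le).trans ?_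
    have h1 : ∏ i, ∑ a ∈ t i, P i a * Real.exp (τ * -Real.log (P i a)) ≤
        ∏ i, Real.exp (τ * HH P t i + τ ^ 2 * L ^ 2) :=
      Finset.prod_le_prod (fun i _ => Finset.sum_nonneg fun a _ =>
        mul_nonneg (h.nonneg i a) (Real.exp_pos _).le)
        (fun i _ => h.mgf_le i L τ (hLb i) hτ.le hτL)
    rw [← Real.exp_sum, Finset.sum_add_distrib, ← Finset.mul_sum, Finset.sum_const,
      Finset.card_univ, nsmul_eq_mul] at h1
    refine (mul_le_mul_of_nonneg_left h1 (Real.exp_pos _).le).trans ?_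
    rw [← Real.exp_add]
    refine le_trans (Real.exp_le_exp.2 ?_) hB0
    have h3 : τ ^ 2 * L ^ 2 * k ≤ τ * ε * k := by
      have : τ ^ 2 * L ^ 2 ≤ τ * ε := by
        calc τ ^ 2 * L ^ 2 = τ * (τ * L ^ 2) := by ring
          _ ≤ τ * ε := mul_le_mul_of_nonneg_left hτε hτ.le
      exact mul_le_mul_of_nonneg_right this hk0
    rw [hB]
    rw [← hk]
    nlinarith
  have hS : typ P t B ⊆ Fintype.piFinset t := Finset.filter_subset _ _
  have htr := fun i => h.trunc e i (typ P t B) hS η hmass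
  -- the test function
  have hF0 : ∀ a, a ∉ typ P t B → FF P (typ P t B) a = 0 := fun a ha => by
    unfold FF; rw [if_neg ha]
  have hFsq : ∑ a ∈ typ P t B, FF P (typ P t B) a ^ 2 ≤ 1 := by
    rw [← h.sum_PP]
    refine (le_of_eq ?_).trans (Finset.sum_le_sum_of_subset_of_nonneg hS
      (fun x _ _ => h.PP_nonneg x))
    refine Finset.sum_congr rfl fun x hx => ?_
    unfold FF
    rw [if_pos hx, Real.sq_sqrt (h.PP_nonneg x)]
  set lam' : ℝ := lam - (lam - s) / 4 with hlam'
  have hlam's : s < lam' := by rw [hlam']; linarith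
  have hne : ∃ a, FF P (typ P t B) a ≠ 0 := by
    by_contra hcon
    push Not at hcon
    obtain ⟨i⟩ : Nonempty ι := by
      by_contra hemp
      rw [not_nonempty_iff] at hemp
      rw [Finset.univ_eq_empty, Finset.sum_empty] at hw1
      norm_num at hw1
    have h1 := htr i
    have h2 : ∑ x ∈ typ P t B, FF P (typ P t B) x *
        FF P (typ P t B) (x + Pi.single i (e i)) = 0 :=
      Finset.sum_eq_zero fun x _ => by rw [hcon x, zero_mul]
    rw [h2, hηs] at h1
    have := hc i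
    linarith
  have hray : lam' * ∑ a ∈ typ P t B, FF P (typ P t B) a ^ 2 ≤
      ∑ j, w j * ∑ a ∈ typ P t B, FF P (typ P t B) a *
        FF P (typ P t B) (a + Pi.single j (e j)) := by
    have h1 : lam' * ∑ a ∈ typ P t B, FF P (typ P t B) a ^ 2 ≤ lam' := by
      have : 0 ≤ lam' := by linarith
      nlinarith
    refine h1.trans ?_
    calc lam' = ∑ j, w j * lam' := by rw [← Finset.sum_mul, hw1, one_mul]
      _ ≤ _ := by
        refine Finset.sum_le_sum fun j _ => mul_le_mul_of_nonneg_left ?_ (hw j)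
        have h2 := htr j
        rw [hηs] at h2
        have h3 := hc j
        rw [hlam']
        linarith
  have hmain := bound_of_test (typ P t B) w hw hw1 (fun i => Pi.single i (e i)) (FF P (typ P t B))
    hF0 hne lam' s hlam's hs1 hray X χ hX
  have hcard := h.card_typ B
  have h5 : lam' - s = 3 * (lam - s) / 4 := by rw [hlam']; ring
  have h6 : 0 < lam - s := by linarith
  rw [h5] at hmain
  have h7 : (X.card : ℝ) ≤ (1 - s + 1) * (4 / (3 * (lam - s))) * Real.exp B := by
    have h8 : (1 - s) * ((typ P t B).card : ℝ) ≤ (1 - s + 1) * Real.exp B := by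
      have := Real.exp_pos B
      nlinarith [Nat.cast_nonneg (α := ℝ) (typ P t B).card]
    have h9 : 3 * (lam - s) / 4 * (X.card : ℝ) ≤ (1 - s + 1) * Real.exp B := hmain.trans h8
    have h10 : (X.card : ℝ) = (4 / (3 * (lam - s))) * (3 * (lam - s) / 4 * (X.card : ℝ)) := by
      field_simp
    rw [h10]
    have h11 : 0 ≤ 4 / (3 * (lam - s)) := by positivity
    calc _ ≤ (4 / (3 * (lam - s))) * ((1 - s + 1) * Real.exp B) :=
          mul_le_mul_of_nonneg_left h9 h11
      _ = _ := by ring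
  refine h7.trans (le_of_eq ?_)
  rw [mul_assoc _ (Real.exp B0), ← Real.exp_add, hB]
  congr 2
  ring

end Pool.Agent.Helper50.CG
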