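import Mathlib

/-!
# Commuting isometries: decomposition into invariant lines and planes (helper80 for helper50)
-/

set_option autoImplicit false

namespace Pool.Agent.Helper50.CG

open Module

section Decomp

variable {E : Type} [NormedAddCommGroup E] [InnerProductSpace ℝ E] [FiniteDimensional ℝ E]

/-- invariance under all elements of `A` -/
def dc_Inv (A : Set (E ≃ₗᵢ[ℝ] E)) (U : Submodule ℝ E) : Prop := ∀ g ∈ A, ∀ x ∈ U, g x ∈ U

lemma dc_symm {A : Set (E ≃ₗᵢ[ℝ] E)} {U : Submodule ℝ E} (h : dc_Inv A U) :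
    ∀ g ∈ A, ∀ x ∈ U, g.symm x ∈ U := by
  intro g hg x hx
  have h1 : U.map (g.toLinearEquiv : E →ₗ[ℝ] E) = U := by
    apply Submodule.eq_of_le_of_finrank_eq
    · rintro y ⟨z, hz, rfl⟩
      exact h g hg z hz
    · exact LinearEquiv.finrank_map_eq g.toLinearEquiv U
  have h2 : x ∈ U.map (g.toLinearEquiv : E →ₗ[ℝ] E) := by rw [h1]; exact hx
  obtain ⟨z, hz, hzx⟩ := h2
  have : g z = x := hzx
  rw [← this]
  simpa using hz

lemma dc_perp {A : Set (E ≃ₗᵢ[ℝ] E)} {U : Submodule ℝ E} (h : dc_Inv A U) : dc_Inv A Uᗮ := by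
  intro g hg x hx
  rw [Submodule.mem_orthogonal] at hx ⊢
  intro u hu
  have h1 := hx _ (dc_symm h g hg u hu)
  rw [← g.inner_map_map] at h1
  simpa using h1

omit [FiniteDimensional ℝ E] in
lemma dc_comm_symm (g h : E ≃ₗᵢ[ℝ] E) (hc : ∀ x, g (h x) = h (g x)) (x : E) :
    g.symm (h x) = h (g.symm x) := by
  apply g.injective
  rw [hc]
  simp

lemma dc_schur {A : Set (E ≃ₗᵢ[ℝ] E)} {U : Submodule ℝ E} (hU : dc_Inv A U)
    (hmin : ∀ U' ≤ U, dc_Inv A U' → U' = ⊥ ∨ U' = U) (hne : U ≠ ⊥) (T : E →ₗ[ℝ] E)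
    (hTU : ∀ x ∈ U, T x ∈ U)
    (hsym : ∀ x ∈ U, ∀ y ∈ U, inner ℝ (T x) y = inner ℝ x (T y))
    (hcom : ∀ g ∈ A, ∀ x ∈ U, T (g x) = g (T x)) : ∃ c : ℝ, ∀ x ∈ U, T x = c • x := by
  have hnt : Nontrivial U := (Submodule.nontrivial_iff_ne_bot).2 hne
  have hs : (T.restrict hTU).IsSymmetric := by
    intro x y
    exact hsym x x.2 y y.2
  have h1 : ∃ c : ℝ, Module.End.eigenspace (T.restrict hTU) c ≠ ⊥ := by
    by_contra hcon
    push Not at hcon
    have := hs.subsingleton_of_no_eigenvalue_finiteDimensional hcon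
    exact not_subsingleton U this
  obtain ⟨c, hc⟩ := h1
  obtain ⟨v, hv, hv0⟩ := Submodule.exists_mem_ne_zero_of_ne_bot hc
  rw [Module.End.mem_eigenspace_iff] at hv
  refine ⟨c, ?_⟩
  set U' : Submodule ℝ E := U ⊓ LinearMap.ker (T - c • LinearMap.id) with hU'
  have hmem : ∀ x, x ∈ U' ↔ x ∈ U ∧ T x = c • x := by
    intro x
    simp [hU', sub_eq_zero]
  have h2 : dc_Inv A U' := by
    intro g hg x hx
    rw [hmem] at hx ⊢
    refine ⟨hU g hg x hx.1, ?_⟩
    rw [hcom g hg x hx.1, hx.2, map_smul]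
  have h3 : U' ≠ ⊥ := by
    intro h
    have h4 : (v : E) ∈ U' := by
      rw [hmem]
      refine ⟨v.2, ?_⟩
      have := congrArg (Subtype.val) hv
      simpa using this
    rw [h, Submodule.mem_bot] at h4
    exact hv0 (by exact_mod_cast h4)
  rcases hmin U' inf_le_left h2 with h | h
  · exact absurd h h3
  · intro x hx
    rw [← h] at hx
    exact ((hmem x).1 hx).2

lemma dc_irr {A : Set (E ≃ₗᵢ[ℝ] E)} (hA : ∀ g ∈ A, ∀ h ∈ A, ∀ x, g (h x) = h (g x))
    {U : Submodule ℝ E} (hU : dc_Inv A U)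
    (hmin : ∀ U' ≤ U, dc_Inv A U' → U' = ⊥ ∨ U' = U) (hne : U ≠ ⊥) :
    finrank ℝ U = 1 ∨ finrank ℝ U = 2 := by
  obtain ⟨v, hv, hv0⟩ := Submodule.exists_mem_ne_zero_of_ne_bot hne
  -- symmetric and antisymmetric parts
  set G : (E ≃ₗᵢ[ℝ] E) → E →ₗ[ℝ] E := fun g => (g.toLinearEquiv : E →ₗ[ℝ] E) with hG
  set S : (E ≃ₗᵢ[ℝ] E) → E →ₗ[ℝ] E := fun g => G g + G g.symm with hS
  set K : (E ≃ₗᵢ[ℝ] E) → E →ₗ[ℝ] E := fun g => G g - G g.symm with hK
  have hGx : ∀ g x, G g x = g x := fun g x => rfl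
  have hSx : ∀ g x, S g x = g x + g.symm x := fun g x => rfl
  have hKx : ∀ g x, K g x = g x - g.symm x := fun g x => rfl
  have hadj : ∀ (g : E ≃ₗᵢ[ℝ] E) (x y : E), inner ℝ (g x) y = inner ℝ x (g.symm y) := by
    intro g x y
    rw [← g.inner_map_map x (g.symm y)]
    simp
  have hadj' : ∀ (g : E ≃ₗᵢ[ℝ] E) (x y : E), inner ℝ (g.symm x) y = inner ℝ x (g y) := by
    intro g x y
    rw [hadj g.symm x y]
    simp
  have hSsym : ∀ g (x y : E), inner ℝ (S g x) y = inner ℝ x (S g y) := by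
    intro g x y
    rw [hSx, hSx, inner_add_left, inner_add_right, hadj, hadj']
    ring
  have hKsym : ∀ g (x y : E), inner ℝ (K g x) y = - inner ℝ x (K g y) := by
    intro g x y
    rw [hKx, hKx, inner_sub_left, inner_sub_right, hadj, hadj']
    ring
  have hSU : ∀ g ∈ A, ∀ x ∈ U, S g x ∈ U := fun g hg x hx =>
    U.add_mem (hU g hg x hx) (dc_symm hU g hg x hx)
  have hKU : ∀ g ∈ A, ∀ x ∈ U, K g x ∈ U := fun g hg x hx =>
    U.sub_mem (hU g hg x hx) (dc_symm hU g hg x hx)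
  have hScom : ∀ g ∈ A, ∀ h ∈ A, ∀ x, S g (h x) = h (S g x) := by
    intro g hg h hh x
    rw [hSx, hSx, map_add, hA g hg h hh, dc_comm_symm g h (hA g hg h hh)]
  have hKcom : ∀ g ∈ A, ∀ h ∈ A, ∀ x, K g (h x) = h (K g x) := by
    intro g hg h hh x
    rw [hKx, hKx, map_sub, hA g hg h hh, dc_comm_symm g h (hA g hg h hh)]
  have hKcom' : ∀ g ∈ A, ∀ h ∈ A, ∀ x, K g (h.symm x) = h.symm (K g x) := by
    intro g hg h hh x
    apply h.injective
    rw [← hKcom g hg h hh]
    simp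
  have hKK : ∀ g ∈ A, ∀ h ∈ A, ∀ x, K g (K h x) = K h (K g x) := by
    intro g hg h hh x
    rw [hKx h x, map_sub, hKcom g hg h hh, hKcom' g hg h hh, ← hKx h]
  choose! c hc using fun g (hg : g ∈ A) => dc_schur hU hmin hne (S g) (hSU g hg)
    (fun x _ y _ => hSsym g x y) (fun h hh x _ => hScom g hg h hh x)
  have hdec : ∀ g ∈ A, ∀ x ∈ U, g x = (c g / 2) • x + (1 / 2 : ℝ) • K g x := by
    intro g hg x hx
    have h1 := hc g hg x hx
    rw [hSx] at h1
    rw [hKx]
    have h2 : (c g / 2) • x = (1 / 2 : ℝ) • (g x + g.symm x) := by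
      rw [h1, smul_smul]
      congr 1
      ring
    rw [h2, ← smul_add]
    have h3 : g x + g.symm x + (g x - g.symm x) = (2 : ℝ) • g x := by
      rw [two_smul]
      abel
    rw [h3, smul_smul]
    norm_num
  by_cases hall : ∀ g ∈ A, ∀ x ∈ U, K g x = 0
  · left
    have h1 : dc_Inv A (ℝ ∙ v) := by
      intro g hg x hx
      obtain ⟨t, rfl⟩ := Submodule.mem_span_singleton.1 hx
      have hxU : t • v ∈ U := U.smul_mem t hv
      rw [hdec g hg _ hxU, hall g hg _ hxU, smul_zero, add_zero, smul_smul]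
      exact Submodule.smul_mem _ _ (Submodule.mem_span_singleton_self v)
    have h2 : (ℝ ∙ v) ≤ U := by
      rw [Submodule.span_singleton_le_iff_mem]
      exact hv
    rcases hmin _ h2 h1 with h | h
    · rw [Submodule.span_singleton_eq_bot] at h
      exact absurd h hv0
    · rw [← h]
      exact finrank_span_singleton hv0
  · push Not at hall
    obtain ⟨g, hg, w, hw, hgw⟩ := hall
    -- `K h ∘ K g` is a scalar
    choose! b hb using fun h (hh : h ∈ A) => dc_schur hU hmin hne (K h ∘ₗ K g)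
      (fun x hx => hKU h hh _ (hKU g hg x hx))
      (fun x _ y _ => by
        rw [LinearMap.comp_apply, LinearMap.comp_apply, hKsym, hKsym, neg_neg, hKK h hh g hg])
      (fun q hq x _ => by
        rw [LinearMap.comp_apply, LinearMap.comp_apply, hKcom g hg q hq, hKcom h hh q hq])
    have hb0 : b g ≠ 0 := by
      intro h0
      have h1 := hb g hg w hw
      rw [LinearMap.comp_apply, h0, zero_smul] at h1
      have h2 := hKsym g (K g w) w
      rw [h1, inner_zero_left] at h2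
      have h3 : inner ℝ (K g w) (K g w) = (0 : ℝ) := by linarith
      exact hgw (inner_self_eq_zero.1 h3)
    have hKh : ∀ h ∈ A, ∀ x ∈ U, K h x = (b h / b g) • K g x := by
      intro h hh x hx
      have h1 := hb h hh (K g x) (hKU g hg x hx)
      have h2 := hb g hg x hx
      rw [LinearMap.comp_apply] at h1 h2
      rw [h2, map_smul] at h1
      have h3 : K h x = (b g)⁻¹ • (b g • K h x) := by
        rw [smul_smul, inv_mul_cancel₀ hb0, one_smul]
      rw [h3, h1, smul_smul]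
      congr 1
      field_simp
    set P : Submodule ℝ E := Submodule.span ℝ {v, K g v} with hP
    have hPU : P ≤ U := by
      rw [hP, Submodule.span_le]
      rintro x (rfl | hx)
      · exact hv
      · rw [Set.mem_singleton_iff] at hx
        rw [hx]
        exact hKU g hg v hv
    have hv1 : v ∈ P := Submodule.subset_span (by simp)
    have hv2 : K g v ∈ P := Submodule.subset_span (by simp)
    have hPK : ∀ x ∈ P, K g x ∈ P := by
      intro x hx
      rw [hP, Submodule.mem_span_pair] at hx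
      obtain ⟨s, t, rfl⟩ := hx
      rw [map_add, map_smul, map_smul]
      have h2 := hb g hg v hv
      rw [LinearMap.comp_apply] at h2
      rw [h2]
      exact P.add_mem (P.smul_mem _ hv2) (P.smul_mem _ (P.smul_mem _ hv1))
    have hPinv : dc_Inv A P := by
      intro h hh x hx
      rw [hdec h hh x (hPU hx), hKh h hh x (hPU hx)]
      exact P.add_mem (P.smul_mem _ hx) (P.smul_mem _ (P.smul_mem _ (hPK x hx)))
    rcases hmin P hPU hPinv with h | h
    · rw [h, Submodule.mem_bot] at hv1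
      exact absurd hv1 hv0
    · have h1 : finrank ℝ P ≤ 2 := by
        classical
        have h5 := finrank_span_finset_le_card (R := ℝ) ({v, K g v} : Finset E)
        rw [Set.finrank, Finset.coe_pair] at h5
        exact h5.trans Finset.card_le_two
      have h2 : 0 < finrank ℝ P := by
        rw [h]
        exact Module.finrank_pos_iff.2 ((Submodule.nontrivial_iff_ne_bot).2 hne)
      rw [← h]
      omega

lemma dc_exists_min {A : Set (E ≃ₗᵢ[ℝ] E)} {W : Submodule ℝ E} (hW : dc_Inv A W) (hne : W ≠ ⊥) :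
    ∃ U ≤ W, dc_Inv A U ∧ U ≠ ⊥ ∧ ∀ U' ≤ U, dc_Inv A U' → U' = ⊥ ∨ U' = U := by
  classical
  have hex : ∃ m : ℕ, ∃ U ≤ W, dc_Inv A U ∧ U ≠ ⊥ ∧ finrank ℝ U = m :=
    ⟨_, W, le_rfl, hW, hne, rfl⟩
  obtain ⟨U, h1, h2, h3, h4⟩ := Nat.find_spec hex
  refine ⟨U, h1, h2, h3, fun U' hU' hinv => ?_⟩
  by_contra hcon
  push Not at hcon
  have h5 : finrank ℝ U' < finrank ℝ U := Submodule.finrank_lt_finrank_of_lt
    (lt_of_le_of_ne hU' hcon.2)
  have h6 := Nat.find_min hex (m := finrank ℝ U') (by omega)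
  exact h6 ⟨U', hU'.trans h1, hinv, hcon.1, rfl⟩

theorem commuting_decomp_sub (A : Set (E ≃ₗᵢ[ℝ] E))
    (hA : ∀ g ∈ A, ∀ h ∈ A, ∀ x, g (h x) = h (g x)) (n : ℕ) :
    ∀ W : Submodule ℝ E, dc_Inv A W → finrank ℝ W ≤ n →
    ∃ (k : ℕ) (V : Fin k → Submodule ℝ E),
      (∀ i j, i ≠ j → ∀ x ∈ V i, ∀ y ∈ V j, inner ℝ x y = 0) ∧ (⨆ i, V i = W) ∧
      (∀ i, Module.finrank ℝ (V i) = 1 ∨ Module.finrank ℝ (V i) = 2) ∧
      ∀ g ∈ A, ∀ i, ∀ x ∈ V i, g x ∈ V i := by
  induction n with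
  | zero =>
    intro W hW hn
    have : W = ⊥ := by
      rw [← Submodule.finrank_eq_zero (R := ℝ)]
      omega
    exact ⟨0, Fin.elim0, fun i => i.elim0, by simp [this], fun i => i.elim0,
      fun g _ i => i.elim0⟩
  | succ n ih =>
    intro W hW hn
    by_cases hne : W = ⊥
    · exact ⟨0, Fin.elim0, fun i => i.elim0, by simp [hne], fun i => i.elim0,
        fun g _ i => i.elim0⟩
    obtain ⟨U, h1, h2, h3, h4⟩ := dc_exists_min hW hne
    have hdim := dc_irr hA h2 h4 h3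
    have hWi : dc_Inv A (W ⊓ Uᗮ) := fun g hg x hx => ⟨hW g hg x hx.1, dc_perp h2 g hg x hx.2⟩
    have hsum : U ⊔ (W ⊓ Uᗮ) = W := by
      rw [inf_comm]
      exact Submodule.sup_orthogonal_inf_of_hasOrthogonalProjection h1
    have hfr : finrank ℝ (W ⊓ Uᗮ : Submodule ℝ E) ≤ n := by
      have h5 : (W ⊓ Uᗮ : Submodule ℝ E) < W := by
        refine lt_of_le_of_ne inf_le_left fun h6 => ?_
        have h7 : U ≤ Uᗮ := h1.trans (by rw [← h6]; exact inf_le_right)
        apply h3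
        rw [eq_bot_iff]
        intro x hx
        rw [Submodule.mem_bot]
        have h8 := (Submodule.mem_orthogonal U x).1 (h7 hx) x hx
        exact inner_self_eq_zero.1 h8
      have := Submodule.finrank_lt_finrank_of_lt h5
      omega
    obtain ⟨k, V, hV1, hV2, hV3, hV4⟩ := ih _ hWi hfr
    have hVp : ∀ i, V i ≤ W ⊓ Uᗮ := fun i => by rw [← hV2]; exact le_iSup V i
    refine ⟨k + 1, Fin.cons U V, ?_, ?_, ?_, ?_⟩
    · intro i j hij x hx y hy
      rcases Fin.eq_zero_or_eq_succ i with rfl | ⟨i', rfl⟩ <;>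
        rcases Fin.eq_zero_or_eq_succ j with rfl | ⟨j', rfl⟩
      · exact absurd rfl hij
      · rw [Fin.cons_zero] at hx
        rw [Fin.cons_succ] at hy
        exact (Submodule.mem_orthogonal U y).1 (hVp j' hy).2 x hx
      · rw [Fin.cons_succ] at hx
        rw [Fin.cons_zero] at hy
        rw [real_inner_comm]
        exact (Submodule.mem_orthogonal U x).1 (hVp i' hx).2 y hy
      · rw [Fin.cons_succ] at hx hy
        exact hV1 i' j' (fun h' => hij (by rw [h'])) x hx y hy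
    · rw [← hsum, ← hV2]
      apply le_antisymm
      · refine iSup_le fun i => ?_
        refine Fin.cases ?_ (fun i' => ?_) i
        · exact le_sup_left
        · simp only [Fin.cons_succ]
          exact (le_iSup V i').trans le_sup_right
      · refine sup_le ?_ (iSup_le fun i => ?_)
        · exact le_iSup (Fin.cons U V : Fin (k + 1) → Submodule ℝ E) 0
        · exact le_iSup (Fin.cons U V : Fin (k + 1) → Submodule ℝ E) (Fin.succ i)
    · intro i
      refine Fin.cases ?_ (fun i' => ?_) i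
      · exact hdim
      · exact hV3 i'
    · intro g hg i
      refine Fin.cases ?_ (fun i' => ?_) i
      · exact h2 g hg
      · exact hV4 g hg i'

end Decomp

theorem commuting_decomp {E : Type} [NormedAddCommGroup E] [InnerProductSpace ℝ E]
    [FiniteDimensional ℝ E]
    (A : Set (E ≃ₗᵢ[ℝ] E)) (hA : ∀ g ∈ A, ∀ h ∈ A, ∀ x, g (h x) = h (g x)) :
    ∃ (k : ℕ) (V : Fin k → Submodule ℝ E),
      (∀ i j, i ≠ j → ∀ x ∈ V i, ∀ y ∈ V j, inner ℝ x y = 0) ∧ (⨆ i, V i = ⊤) ∧
      (∀ i, Module.finrank ℝ (V i) = 1 ∨ Module.finrank ℝ (V i) = 2) ∧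
      ∀ g ∈ A, ∀ i, ∀ x ∈ V i, g x ∈ V i :=
  commuting_decomp_sub A hA (finrank ℝ E) ⊤ (fun _ _ _ _ => trivial) (by simp)

end Pool.Agent.Helper50.CG
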