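import Mathlib

/-! A nonnegative eigenvector of a nonnegative symmetric matrix. -/

set_option autoImplicit false

open Finset Metric

namespace Pool.Agent.Helper50.CG

variable {ι : Type*} [Fintype ι]

/-- the operator of the matrix -/
noncomputable def op (M : ι → ι → ℝ) : EuclideanSpace ℝ ι →ₗ[ℝ] EuclideanSpace ℝ ι where
  toFun x := WithLp.toLp 2 (fun a => ∑ b, M a b * x b)
  map_add' x y := by
    ext a
    simp [mul_add, Finset.sum_add_distrib]
  map_smul' c x := by
    ext a
    simp [Finset.mul_sum, mul_left_comm]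

theorem op_apply (M : ι → ι → ℝ) (x : EuclideanSpace ℝ ι) (a : ι) :
    op M x a = ∑ b, M a b * x b := rfl

theorem inner_eq (x y : EuclideanSpace ℝ ι) : inner ℝ x y = ∑ a, x a * y a := by
  rw [PiLp.inner_apply]
  refine Finset.sum_congr rfl fun a _ => ?_
  simp [mul_comm]

theorem op_symm (M : ι → ι → ℝ) (hsym : ∀ a b, M a b = M b a) : (op M).IsSymmetric := by
  intro x y
  rw [inner_eq, inner_eq]
  simp only [op_apply, Finset.sum_mul, Finset.mul_sum]
  rw [Finset.sum_comm]
  refine Finset.sum_congr rfl fun a _ => Finset.sum_congr rfl fun b _ => ?_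
  rw [hsym b a]; ring

/-- **Perron's theorem** for symmetric matrices. -/
theorem perron (M : ι → ι → ℝ) (hsym : ∀ a b, M a b = M b a) (hnn : ∀ a b, 0 ≤ M a b)
    (F : ι → ℝ) (hF : F ≠ 0) (lam : ℝ) (h : lam * ∑ a, F a ^ 2 ≤ ∑ a, ∑ b, M a b * F a * F b) :
    ∃ f : ι → ℝ, (∀ a, 0 ≤ f a) ∧ f ≠ 0 ∧ ∀ a, lam * f a ≤ ∑ b, M a b * f b := by
  classical
  have hS := op_symm M hsym
  let T' := hS.toSelfAdjoint
  have hT' : ∀ x, T'.val x = op M x := fun x => rfl
  have hre : ∀ x : EuclideanSpace ℝ ι, T'.val.reApplyInnerSelf x = ∑ a, ∑ b, M a b * x a * x b := by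
    intro x
    rw [ContinuousLinearMap.reApplyInnerSelf_apply, hT', inner_eq]
    simp only [op_apply, Finset.sum_mul, RCLike.re_to_real]
    refine Finset.sum_congr rfl fun a _ => Finset.sum_congr rfl fun b _ => ?_
    ring
  let F' : EuclideanSpace ℝ ι := WithLp.toLp 2 F
  have hF' : F' ≠ 0 := by
    intro h0
    apply hF
    funext a
    have := congrArg (fun v : EuclideanSpace ℝ ι => v a) h0
    simpa [F'] using this
  have hn : 0 < ‖F'‖ := norm_pos_iff.2 hF'
  have H₁ : IsCompact (sphere (0 : EuclideanSpace ℝ ι) ‖F'‖) := isCompact_sphere _ _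
  have H₂ : (sphere (0 : EuclideanSpace ℝ ι) ‖F'‖).Nonempty := ⟨F', by simp⟩
  obtain ⟨x₀, hx₀', hTx₀⟩ :=
    H₁.exists_isMaxOn H₂ T'.val.reApplyInnerSelf_continuous.continuousOn
  -- the absolute value
  let y : EuclideanSpace ℝ ι := WithLp.toLp 2 (fun a => |x₀ a|)
  have hy : ∀ a, y a = |x₀ a| := fun a => rfl
  have hynorm : ‖y‖ = ‖F'‖ := by
    have h1 : ‖x₀‖ = ‖F'‖ := by simpa using hx₀'
    rw [← h1, EuclideanSpace.norm_eq, EuclideanSpace.norm_eq]
    congr 1
    refine Finset.sum_congr rfl fun a _ => ?_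
    rw [hy, norm_abs_eq_norm]
  have hymax : IsMaxOn T'.val.reApplyInnerSelf (sphere 0 ‖y‖) y := by
    rw [hynorm]
    intro z hz
    have hz2 : T'.val.reApplyInnerSelf z ≤ T'.val.reApplyInnerSelf x₀ := hTx₀ hz
    show T'.val.reApplyInnerSelf z ≤ T'.val.reApplyInnerSelf y
    refine le_trans hz2 ?_
    rw [hre, hre]
    refine Finset.sum_le_sum fun a _ => Finset.sum_le_sum fun b _ => ?_
    rw [hy, hy, mul_assoc, mul_assoc]
    refine mul_le_mul_of_nonneg_left ?_ (hnn a b)
    rw [← abs_mul]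
    exact le_abs_self _
  have hy0 : y ≠ 0 := by
    rw [← norm_pos_iff, hynorm]; exact hn
  have heig := T'.prop.eq_smul_self_of_isLocalExtrOn (Or.inr hymax.localize)
  have hray : lam ≤ T'.val.rayleighQuotient y := by
    have h1 : T'.val.reApplyInnerSelf F' ≤ T'.val.reApplyInnerSelf y := by
      have : F' ∈ sphere (0 : EuclideanSpace ℝ ι) ‖y‖ := by simp [hynorm]
      exact hymax this
    rw [ContinuousLinearMap.rayleighQuotient, le_div_iff₀ (by positivity)]
    refine le_trans ?_ h1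
    rw [hre, hynorm, EuclideanSpace.norm_sq_eq]
    refine le_trans (le_of_eq ?_) h
    congr 1
    refine Finset.sum_congr rfl fun a _ => ?_
    simp [F']
  refine ⟨fun a => |x₀ a|, fun a => abs_nonneg _, ?_, fun a => ?_⟩
  · intro h0
    apply hy0
    ext a
    have h1 : |x₀ a| = 0 := congrFun h0 a
    rw [hy, h1]
    simp
  · have h2 := congrArg (fun v : EuclideanSpace ℝ ι => v a) heig
    have h3 : ∑ b, M a b * |x₀ b| = T'.val.rayleighQuotient y * |x₀ a| := by
      simpa [hT', op_apply, hy] using h2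
    rw [h3]
    exact mul_le_mul_of_nonneg_right hray (abs_nonneg _)

end Pool.Agent.Helper50.CG
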