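import Pool.Agent.Helper50.CG.LP
import Pool.Agent.Helper50.CG.Perron

/-! From the Rayleigh quotient on a finite set to the bound. -/

set_option autoImplicit false

open Finset

namespace Pool.Agent.Helper50.CG

variable {Γ : Type} [AddCommGroup Γ] {J : Type} [Fintype J] {α : Type}

open Classical in
/-- the matrix of the averaging operator -/
noncomputable def mat (w : J → ℝ) (e : J → Γ) (a b : Γ) : ℝ :=
  ∑ j, w j * (((if b = a - e j then 1 else 0) + (if b = a + e j then 1 else 0)) / 2)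

theorem mat_symm (w : J → ℝ) (e : J → Γ) (a b : Γ) : mat w e a b = mat w e b a := by
  classical
  unfold mat
  refine Finset.sum_congr rfl fun j _ => ?_
  have h1 : (b = a - e j) ↔ (a = b + e j) := by
    constructor
    · rintro rfl; abel
    · rintro rfl; abel
  have h2 : (b = a + e j) ↔ (a = b - e j) := by
    constructor
    · rintro rfl; abel
    · rintro rfl; abel
  rw [add_comm (if b = a - e j then (1 : ℝ) else 0)]
  congr 3
  · exact if_congr h2 rfl rfl
  · exact if_congr h1 rfl rfl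

theorem mat_nonneg (w : J → ℝ) (hw : ∀ j, 0 ≤ w j) (e : J → Γ) (a b : Γ) : 0 ≤ mat w e a b := by
  unfold mat
  refine Finset.sum_nonneg fun j _ => mul_nonneg (hw j) ?_
  split_ifs <;> norm_num

theorem avg_eq_mat (S : Finset Γ) (w : J → ℝ) (e : J → Γ) (f : Γ → ℝ) (hf : ∀ a, a ∉ S → f a = 0)
    (a : Γ) : avg w e f a = ∑ b ∈ S, mat w e a b * f b := by
  classical
  unfold avg mat
  simp only [Finset.sum_mul]
  rw [Finset.sum_comm]
  refine Finset.sum_congr rfl fun j _ => ?_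
  have key : ∀ c : Γ, f c = ∑ b ∈ S, (if b = c then 1 else 0) * f b := by
    intro c
    by_cases hc : c ∈ S
    · rw [Finset.sum_eq_single c]
      · simp
      · intro b _ hb; simp [hb]
      · intro h; exact absurd hc h
    · rw [hf c hc]
      symm
      refine Finset.sum_eq_zero fun b hb => ?_
      rw [if_neg, zero_mul]
      rintro rfl; exact hc hb
  rw [key (a - e j), key (a + e j), ← Finset.sum_add_distrib, Finset.sum_div, Finset.mul_sum]
  refine Finset.sum_congr rfl fun b _ => ?_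
  by_cases h1 : b = a - e j <;> by_cases h2 : b = a + e j <;> simp only [h1, h2, if_true, if_false] <;> ring_nf

theorem exists_f (S : Finset Γ) (w : J → ℝ) (hw : ∀ j, 0 ≤ w j) (e : J → Γ) (F : Γ → ℝ)
    (hF : ∀ a, a ∉ S → F a = 0) (hne : ∃ a, F a ≠ 0) (lam : ℝ)
    (h : lam * ∑ a ∈ S, F a ^ 2 ≤ ∑ a ∈ S, F a * avg w e F a) :
    ∃ f : Γ → ℝ, (∀ a, a ∉ S → f a = 0) ∧ (∀ a, 0 ≤ f a) ∧ (∃ a, f a ≠ 0) ∧
      ∀ c, lam * f c ≤ avg w e f c := by
  classical
  obtain ⟨f0, h0, h1, h2⟩ := perron (ι := {x // x ∈ S}) (fun a b => mat w e a.1 b.1)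
    (fun a b => mat_symm w e _ _) (fun a b => mat_nonneg w hw e _ _) (fun a => F a.1) (by
      obtain ⟨a, ha⟩ := hne
      have haS : a ∈ S := by by_contra hh; exact ha (hF a hh)
      intro h3
      exact ha (congrFun h3 ⟨a, haS⟩)) lam (by
      rw [Finset.sum_coe_sort S (fun a => F a ^ 2)]
      refine h.trans (le_of_eq ?_)
      rw [← Finset.sum_coe_sort S]
      refine Finset.sum_congr rfl fun a _ => ?_
      rw [avg_eq_mat S w e F hF, ← Finset.sum_coe_sort S, Finset.mul_sum]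
      refine Finset.sum_congr rfl fun b _ => ?_
      ring)
  let f : Γ → ℝ := fun a => if h : a ∈ S then f0 ⟨a, h⟩ else 0
  have hfS : ∀ a (ha : a ∈ S), f a = f0 ⟨a, ha⟩ := fun a ha => by simp [f, ha]
  have hf0 : ∀ a, a ∉ S → f a = 0 := fun a ha => by simp [f, ha]
  have hfn : ∀ a, 0 ≤ f a := fun a => by
    by_cases ha : a ∈ S
    · rw [hfS a ha]; exact h0 _
    · rw [hf0 a ha]
  refine ⟨f, hf0, hfn, ?_, fun c => ?_⟩
  · by_contra hh
    push Not at hh
    apply h1
    funext a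
    have := hh a.1
    rw [hfS a.1 a.2] at this
    exact this
  · rw [avg_eq_mat S w e f hf0]
    by_cases hc : c ∈ S
    · rw [hfS c hc]
      refine (h2 ⟨c, hc⟩).trans (le_of_eq ?_)
      rw [← Finset.sum_coe_sort S]
      refine Finset.sum_congr rfl fun b _ => ?_
      rw [hfS b.1 b.2]
    · rw [hf0 c hc, mul_zero]
      exact Finset.sum_nonneg fun b _ => mul_nonneg (mat_nonneg w hw e _ _) (hfn b)

theorem rayleigh_eq (S : Finset Γ) (w : J → ℝ) (e : J → Γ) (F : Γ → ℝ)
    (hF : ∀ a, a ∉ S → F a = 0) :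
    ∑ a ∈ S, F a * avg w e F a = ∑ j, w j * ∑ a ∈ S, F a * F (a + e j) := by
  classical
  have h1 : ∀ j, ∑ a ∈ S, F a * F (a - e j) = ∑ a ∈ S, F a * F (a + e j) := by
    intro j
    rw [shift_sum S (S ∪ S.image (· + e j)) F hF (e j) (fun a ha =>
      Finset.mem_union_right _ (Finset.mem_image_of_mem _ ha)) F]
    rw [← Finset.sum_subset (Finset.subset_union_left (s₁ := S) (s₂ := S.image (· + e j)))
      (fun c _ hc => by rw [hF c hc, mul_zero])]
    refine Finset.sum_congr rfl fun a _ => mul_comm _ _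
  unfold avg
  simp only [Finset.mul_sum]
  rw [Finset.sum_comm]
  refine Finset.sum_congr rfl fun j _ => ?_
  have h2 := h1 j
  have h3 : ∑ x ∈ S, F x * (w j * ((F (x - e j) + F (x + e j)) / 2)) =
      w j * ((∑ x ∈ S, F x * F (x - e j) + ∑ x ∈ S, F x * F (x + e j)) / 2) := by
    rw [← Finset.sum_add_distrib, Finset.sum_div, Finset.mul_sum]
    refine Finset.sum_congr rfl fun x _ => ?_
    ring
  rw [h3, h2, ← Finset.mul_sum]
  ring

/-- the bound from a test function -/
theorem bound_of_test (S : Finset Γ) (w : J → ℝ) (hw : ∀ j, 0 ≤ w j) (hw1 : ∑ j, w j = 1)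
    (e : J → Γ) (F : Γ → ℝ) (hF : ∀ a, a ∉ S → F a = 0) (hne : ∃ a, F a ≠ 0) (lam s : ℝ)
    (hs : s < lam) (hs1 : s ≤ 1)
    (h : lam * ∑ a ∈ S, F a ^ 2 ≤ ∑ j, w j * ∑ a ∈ S, F a * F (a + e j))
    (X : Finset α) (χ : α → AddChar Γ Circle)
    (hX : ∀ x ∈ X, ∀ y ∈ X, x ≠ y → ∑ j, w j * rr χ x y (e j) ≤ s) :
    (lam - s) * (X.card : ℝ) ≤ (1 - s) * S.card := by
  rw [← rayleigh_eq S w e F hF] at h
  obtain ⟨f, h1, h2, h3, h4⟩ := exists_f S w hw e F hF hne lam h
  exact lp_bound S f h1 h2 w hw1 e lam s hs hs1 h4 h3 X χ hX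

end Pool.Agent.Helper50.CG
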