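import Pool.Agent.Helper50.CG.Alpha

/-! Spherical codes and decompositions in lines and planes. -/

set_option autoImplicit false
set_option linter.unusedSectionVars false

open Finset Module

namespace Pool.Agent.Helper50.CG

/-- the phase of a complex number -/
noncomputable def phase (z : ℂ) : Circle :=
  if h : z = 0 then 1 else ⟨z / ‖z‖, mem_sphere_zero_iff_norm.2 (by
    rw [norm_div, Complex.norm_real, norm_norm, div_self (norm_ne_zero_iff.2 h)])⟩

theorem phase_eq (z : ℂ) : z = ‖z‖ * (phase z : ℂ) := by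
  unfold phase
  split_ifs with h
  · simp [h]
  · have h1 : (‖z‖ : ℂ) ≠ 0 := by exact_mod_cast norm_ne_zero_iff.2 h
    show z = ‖z‖ * (z / ‖z‖)
    field_simp

theorem phase_sq (z : ℂ) (hz : z.im = 0) : phase z ^ 2 = 1 := by
  by_cases h : z = 0
  · unfold phase
    rw [dif_pos h, one_pow]
  · have h1 : (‖z‖ : ℂ) ≠ 0 := by exact_mod_cast norm_ne_zero_iff.2 h
    have h2 := phase_eq z
    have h3 : (phase z : ℂ) = z / ‖z‖ := by
      rw [eq_div_iff h1, mul_comm]; exact h2.symm
    apply Circle.ext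
    rw [Circle.coe_pow, Circle.coe_one, h3]
    have h4 : z = (z.re : ℂ) := Complex.ext (by simp) (by simp [hz])
    have h5 : (‖z‖ : ℝ) ^ 2 = z.re ^ 2 := by
      rw [h4]; simp
    rw [div_pow, div_eq_one_iff_eq (pow_ne_zero 2 h1)]
    have h6 : ((‖z‖ : ℝ) ^ 2 : ℂ) = ((z.re ^ 2 : ℝ) : ℂ) := by rw [← h5]; push_cast; rfl
    rw [h6]
    conv_lhs => rw [h4]
    push_cast
    rfl

theorem exists_emb (W : Type) [NormedAddCommGroup W] [InnerProductSpace ℝ W]
    [FiniteDimensional ℝ W] (h : finrank ℝ W = 1 ∨ finrank ℝ W = 2) :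
    ∃ φ : W →ₗᵢ[ℝ] ℂ, finrank ℝ W = 1 → ∀ v, (φ v).im = 0 := by
  rcases h with h | h
  · let b := (stdOrthonormalBasis ℝ W).reindex (finCongr h)
    let b' : OrthonormalBasis (Fin 1) ℝ ℝ := OrthonormalBasis.singleton (Fin 1) ℝ
    refine ⟨Complex.ofRealLI.comp (b.equiv b' (Equiv.refl _)).toLinearIsometry, fun _ v => ?_⟩
    simp
  · let b := (stdOrthonormalBasis ℝ W).reindex (finCongr h)
    refine ⟨(b.equiv Complex.orthonormalBasisOneI (Equiv.refl _)).toLinearIsometry, fun h1 => ?_⟩
    omega

theorem inner_emb {W : Type} [NormedAddCommGroup W] [InnerProductSpace ℝ W] (φ : W →ₗᵢ[ℝ] ℂ)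
    (v w : W) : inner ℝ v w =
      ‖v‖ * ‖w‖ * ((phase (φ v) : ℂ) * (starRingEnd ℂ) (phase (φ w) : ℂ)).re := by
  rw [← φ.inner_map_map v w, Complex.inner, ← φ.norm_map v, ← φ.norm_map w]
  conv_lhs => rw [phase_eq (φ v), phase_eq (φ w)]
  rw [map_mul, Complex.conj_ofReal]
  have key : ∀ (r t : ℝ) (a b : ℂ), ((t : ℂ) * b * ((r : ℂ) * (starRingEnd ℂ) a)).re =
      r * t * (a * (starRingEnd ℂ) b).re := by
    intro r t a b
    simp only [Complex.mul_re, Complex.mul_im, Complex.conj_re, Complex.conj_im,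
      Complex.ofReal_re, Complex.ofReal_im]
    ring
  exact key _ _ _ _

variable {E : Type} [NormedAddCommGroup E] [InnerProductSpace ℝ E] [FiniteDimensional ℝ E]

/-- an orthogonal decomposition in lines and planes -/
structure IsDecomp {k : ℕ} (V : Fin k → Submodule ℝ E) : Prop where
  orth : ∀ i j, i ≠ j → ∀ x ∈ V i, ∀ y ∈ V j, inner ℝ x y = 0
  top : ⨆ i, V i = ⊤
  dim : ∀ i, finrank ℝ (V i) = 1 ∨ finrank ℝ (V i) = 2

/-- the norms of the components -/
noncomputable def prof {k : ℕ} (V : Fin k → Submodule ℝ E) (x : E) (i : Fin k) : ℝ :=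
  ‖(V i).starProjection x‖

theorem IsDecomp.fam {k : ℕ} {V : Fin k → Submodule ℝ E} (h : IsDecomp V) :
    OrthogonalFamily ℝ (fun i => V i) (fun i => (V i).subtypeₗᵢ) := by
  intro i j hij v w
  exact h.orth i j hij v v.2 w w.2

theorem IsDecomp.inner_eq {k : ℕ} {V : Fin k → Submodule ℝ E} (h : IsDecomp V) (x y : E) :
    inner ℝ x y = ∑ i, inner ℝ ((V i).starProjection x) ((V i).starProjection y) := by
  have h1 := h.fam.sum_projection_of_mem_iSup y (by rw [h.top]; trivial)
  conv_lhs => rw [← h1]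
  rw [inner_sum]
  refine Finset.sum_congr rfl fun i _ => ?_
  have h2 : (V i).starProjection ((V i).starProjection y) = (V i).starProjection y :=
    Submodule.starProjection_eq_self_iff.2 (Submodule.starProjection_apply_mem _ _)
  conv_lhs => rw [← h2]
  exact (Submodule.inner_starProjection_left_eq_right (V i) x _).symm

theorem IsDecomp.finrank_eq {k : ℕ} {V : Fin k → Submodule ℝ E} (h : IsDecomp V) :
    ∑ i, finrank ℝ (V i) = finrank ℝ E := by
  classical
  have hI : DirectSum.IsInternal V := by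
    rw [h.fam.isInternal_iff, h.top, Submodule.top_orthogonal_eq_bot]
  let b := hI.collectedBasis (fun i => Module.finBasis ℝ (V i))
  rw [Module.finrank_eq_card_basis b, Fintype.card_sigma]
  simp

/-- number of lines -/
noncomputable def lines {k : ℕ} (V : Fin k → Submodule ℝ E) : ℕ :=
  (Finset.univ.filter (fun i => finrank ℝ (V i) = 1)).card
/-- number of planes -/
noncomputable def planes {k : ℕ} (V : Fin k → Submodule ℝ E) : ℕ :=
  (Finset.univ.filter (fun i => finrank ℝ (V i) = 2)).card

theorem IsDecomp.card_eq {k : ℕ} {V : Fin k → Submodule ℝ E} (h : IsDecomp V) :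
    lines V + planes V = k ∧ lines V + 2 * planes V = finrank ℝ E := by
  have h1 : ∀ i, finrank ℝ (V i) = (if finrank ℝ (V i) = 1 then 1 else 0) +
      2 * (if finrank ℝ (V i) = 2 then 1 else 0) := by
    intro i
    rcases h.dim i with h | h <;> simp [h]
  have h2 : ∀ i, 1 = (if finrank ℝ (V i) = 1 then 1 else 0) +
      (if finrank ℝ (V i) = 2 then 1 else 0) := by
    intro i
    rcases h.dim i with h | h <;> simp [h]
  unfold lines planes
  rw [Finset.card_filter, Finset.card_filter]
  constructor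
  · rw [← Finset.sum_add_distrib, ← Finset.sum_congr rfl (fun i _ => h2 i)]
    simp
  · rw [Finset.mul_sum, ← Finset.sum_add_distrib, ← Finset.sum_congr rfl (fun i _ => h1 i),
      h.finrank_eq]

theorem flat_bound (q : ℤ → ℝ) (T : Finset ℤ) (p s lam L ε : ℝ) (h : Para q T p lam L)
    (hs0 : 0 ≤ s) (hs : s < lam) (hs1 : s ≤ 1) (hL : 1 ≤ L) (hε : 0 < ε) :
    ∃ K : ℝ, 0 < K ∧ ∀ (E : Type) [NormedAddCommGroup E] [InnerProductSpace ℝ E]
      [FiniteDimensional ℝ E] (k : ℕ) (V : Fin k → Submodule ℝ E), IsDecomp V →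
      ∀ X : Finset E, (∀ x ∈ X, ‖x‖ = 1) → (∀ x ∈ X, ∀ y ∈ X, x ≠ y → inner ℝ x y ≤ s) →
      (X.card : ℝ) ≤ (prof V '' (X : Set E)).ncard *
        (K * Real.exp (lines V * hp p + planes V * Hq q T + ε * k)) := by
  classical
  obtain ⟨K, hK, hb⟩ := phase_bound q T p s lam L ε h hs0 hs hs1 hL hε
  refine ⟨K, hK, ?_⟩
  intro E _ _ _ k V hV X hX1 hXs
  choose φ hφ using fun i => exists_emb (V i) (hV.dim i)
  have hcost : (∑ i, if (if finrank ℝ (V i) = 1 then 2 else 0) = 0 then Hq q T else hp p) =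
      lines V * hp p + planes V * Hq q T := by
    have h1 : ∀ i, (if (if finrank ℝ (V i) = 1 then 2 else 0) = 0 then Hq q T else hp p) =
        (if finrank ℝ (V i) = 1 then hp p else 0) + (if finrank ℝ (V i) = 2 then Hq q T else 0) := by
      intro i
      rcases hV.dim i with h | h <;> simp [h]
    rw [Finset.sum_congr rfl (fun i _ => h1 i), Finset.sum_add_distrib, ← Finset.sum_filter,
      ← Finset.sum_filter, Finset.sum_const, Finset.sum_const, nsmul_eq_mul, nsmul_eq_mul]
    rfl
  have himg : (prof V '' (X : Set E)).ncard = (X.image (prof V)).card := by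
    rw [← Finset.coe_image, Set.ncard_coe_finset]
  rw [himg]
  have hsum : X.card = ∑ r ∈ X.image (prof V), (X.filter (fun x => prof V x = r)).card :=
    Finset.card_eq_sum_card_image _ _
  rw [hsum, Nat.cast_sum, ← nsmul_eq_mul, ← Finset.sum_const]
  refine Finset.sum_le_sum fun r hr => ?_
  obtain ⟨x₀, hx₀, hr0⟩ := Finset.mem_image.1 hr
  have hw1 : ∑ i, r i ^ 2 = 1 := by
    have h1 : inner ℝ x₀ x₀ = 1 := by rw [real_inner_self_eq_norm_sq, hX1 x₀ hx₀]; norm_num
    rw [hV.inner_eq] at h1
    rw [← h1]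
    refine Finset.sum_congr rfl fun i _ => ?_
    rw [real_inner_self_eq_norm_sq, ← hr0]
    rfl
  have := hb (Fin k) (fun i => if finrank ℝ (V i) = 1 then 2 else 0) (fun i => by
      split_ifs
      · exact Or.inr rfl
      · exact Or.inl rfl) (fun i => r i ^ 2) (fun i => sq_nonneg _) hw1 E
      (X.filter (fun x => prof V x = r))
      (fun x i => phase (φ i ((V i).orthogonalProjectionOnto x))) (fun x i => by
        split_ifs with h1
        · exact phase_sq _ (hφ i h1 _)
        · exact pow_zero _) (by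
      intro x hx y hy hxy
      rw [Finset.mem_filter] at hx hy
      refine (le_of_eq ?_).trans (hXs x hx.1 y hy.1 hxy)
      rw [hV.inner_eq]
      refine Finset.sum_congr rfl fun i _ => ?_
      have h1 : inner ℝ ((V i).starProjection x) ((V i).starProjection y) =
          inner ℝ ((V i).orthogonalProjectionOnto x) ((V i).orthogonalProjectionOnto y) := by
        rw [Submodule.starProjection_apply, Submodule.starProjection_apply, Submodule.coe_inner]
      have h2 : ∀ z : E, prof V z = r → ‖(V i).orthogonalProjectionOnto z‖ = r i := by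
        intro z hz
        rw [← hz]
        unfold prof
        rw [Submodule.starProjection_apply, Submodule.coe_norm]
      rw [h1, inner_emb (φ i), h2 x hx.2, h2 y hy.2, pow_two])
  rw [hcost, Fintype.card_fin] at this
  exact this

end Pool.Agent.Helper50.CG
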