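import Mathlib

/-! The linear programming bound with a positive function on a discrete abelian group. -/

set_option autoImplicit false

open Finset

namespace Pool.Agent.Helper50.CG

variable {Γ : Type*} [AddCommGroup Γ] {J : Type*} [Fintype J] {α : Type*}

/-- the averaging operator -/
noncomputable def avg (w : J → ℝ) (e : J → Γ) (f : Γ → ℝ) (a : Γ) : ℝ :=
  ∑ j, w j * ((f (a - e j) + f (a + e j)) / 2)

/-- `N(z) = |∑_{x ∈ X} χ_x(z)|²` -/
noncomputable def nn (X : Finset α) (χ : α → AddChar Γ Circle) (z : Γ) : ℝ :=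
  ‖∑ x ∈ X, (χ x z : ℂ)‖ ^ 2

theorem nn_nonneg (X : Finset α) (χ : α → AddChar Γ Circle) (z : Γ) : 0 ≤ nn X χ z := by
  unfold nn; positivity

theorem nn_zero (X : Finset α) (χ : α → AddChar Γ Circle) : nn X χ 0 = (X.card : ℝ) ^ 2 := by
  unfold nn; simp

/-- the real part of `χ_x(z) conj χ_y(z)` -/
noncomputable def rr (χ : α → AddChar Γ Circle) (x y : α) (z : Γ) : ℝ :=
  ((χ x z : ℂ) * (starRingEnd ℂ) (χ y z : ℂ)).re

theorem sum_rr (X : Finset α) (χ : α → AddChar Γ Circle) (z : Γ) :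
    ∑ x ∈ X, ∑ y ∈ X, rr χ x y z = nn X χ z := by
  have h : (nn X χ z : ℂ) = ∑ x ∈ X, ∑ y ∈ X, ((χ x z : ℂ) * (starRingEnd ℂ) (χ y z : ℂ)) := by
    unfold nn
    rw [← Finset.sum_mul_sum, ← map_sum, Complex.mul_conj, Complex.normSq_eq_norm_sq]
  have h2 := congrArg Complex.re h
  rw [Complex.ofReal_re] at h2
  rw [h2, Complex.re_sum]
  refine Finset.sum_congr rfl fun x _ => ?_
  rw [Complex.re_sum]
  rfl

theorem rr_zero (χ : α → AddChar Γ Circle) (x y : α) : rr χ x y 0 = 1 := by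
  unfold rr; simp

theorem circle_ne (c : Circle) : (c : ℂ) ≠ 0 := Circle.coe_ne_zero c

theorem conj_circle (c : Circle) : (starRingEnd ℂ) (c : ℂ) = ((c⁻¹ : Circle) : ℂ) :=
  (Circle.coe_inv_eq_conj c).symm

/-- the character `χ_x / χ_y` as a map to the circle -/
theorem rr_eq (χ : α → AddChar Γ Circle) (x y : α) (z : Γ) :
    rr χ x y z = ((χ x z * (χ y z)⁻¹ : Circle) : ℂ).re := by
  unfold rr
  rw [conj_circle, Circle.coe_mul]

/-- addition formula -/
theorem rr_mul (χ : α → AddChar Γ Circle) (x y : α) (z e : Γ) :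
    rr χ x y z * rr χ x y e = (rr χ x y (z + e) + rr χ x y (z - e)) / 2 := by
  have key : ∀ u v : Circle, (u : ℂ).re * (v : ℂ).re =
      (((u * v : Circle) : ℂ).re + ((u * v⁻¹ : Circle) : ℂ).re) / 2 := by
    intro u v
    rw [Circle.coe_mul, Circle.coe_mul, ← conj_circle]
    simp only [Complex.mul_re, Complex.conj_re, Complex.conj_im]
    ring
  simp only [rr_eq]
  rw [key]
  have h1 : (χ x z * (χ y z)⁻¹) * (χ x e * (χ y e)⁻¹) = χ x (z + e) * (χ y (z + e))⁻¹ := by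
    rw [AddChar.map_add_eq_mul, AddChar.map_add_eq_mul, mul_inv]
    exact mul_mul_mul_comm _ _ _ _
  have h2 : (χ x z * (χ y z)⁻¹) * (χ x e * (χ y e)⁻¹)⁻¹ = χ x (z - e) * (χ y (z - e))⁻¹ := by
    rw [AddChar.map_sub_eq_div, AddChar.map_sub_eq_div, mul_inv, div_eq_mul_inv, div_eq_mul_inv,
      mul_inv]
    exact mul_mul_mul_comm _ _ _ _
  rw [h1, h2]

/-- the square of `|∑ f(a) χ(a)|` for the character `χ_x / χ_y` -/
noncomputable def gg (S : Finset Γ) (f : Γ → ℝ) (χ : α → AddChar Γ Circle) (x y : α) : ℝ :=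
  ∑ a ∈ S, ∑ b ∈ S, f a * f b * rr χ x y (a - b)

theorem gg_eq (S : Finset Γ) (f : Γ → ℝ) (χ : α → AddChar Γ Circle) (x y : α) :
    gg S f χ x y = ‖∑ a ∈ S, (f a : ℂ) * ((χ x a * (χ y a)⁻¹ : Circle) : ℂ)‖ ^ 2 := by
  have h : ((‖∑ a ∈ S, (f a : ℂ) * ((χ x a * (χ y a)⁻¹ : Circle) : ℂ)‖ ^ 2 : ℝ) : ℂ) =
      ∑ a ∈ S, ∑ b ∈ S, ((f a * f b : ℝ) : ℂ) *
        ((χ x (a - b) * (χ y (a - b))⁻¹ : Circle) : ℂ) := by
    rw [← Complex.normSq_eq_norm_sq, ← Complex.mul_conj, map_sum, Finset.sum_mul_sum]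
    refine Finset.sum_congr rfl fun a _ => Finset.sum_congr rfl fun b _ => ?_
    rw [map_mul, Complex.conj_ofReal, conj_circle]
    have : (χ x (a - b) * (χ y (a - b))⁻¹ : Circle) =
        (χ x a * (χ y a)⁻¹) * (χ x b * (χ y b)⁻¹)⁻¹ := by
      rw [AddChar.map_sub_eq_div, AddChar.map_sub_eq_div, mul_inv, div_eq_mul_inv, div_eq_mul_inv,
        mul_inv]
      exact mul_mul_mul_comm _ _ _ _
    rw [this, Circle.coe_mul (χ x a * (χ y a)⁻¹)]
    push_cast
    ring
  have h2 := congrArg Complex.re h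
  rw [Complex.ofReal_re] at h2
  rw [h2, Complex.re_sum]
  unfold gg
  refine Finset.sum_congr rfl fun a _ => ?_
  rw [Complex.re_sum]
  refine Finset.sum_congr rfl fun b _ => ?_
  rw [Complex.re_ofReal_mul, rr_eq]

theorem gg_nonneg (S : Finset Γ) (f : Γ → ℝ) (χ : α → AddChar Γ Circle) (x y : α) :
    0 ≤ gg S f χ x y := by
  rw [gg_eq]; positivity

theorem gg_self (S : Finset Γ) (f : Γ → ℝ) (χ : α → AddChar Γ Circle) (x : α) :
    gg S f χ x x = (∑ a ∈ S, f a) ^ 2 := by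
  rw [gg_eq]
  simp only [mul_inv_cancel, Circle.coe_one, mul_one]
  rw [← Complex.ofReal_sum, Complex.norm_real, Real.norm_eq_abs, sq_abs]

theorem shift_sum (S U : Finset Γ) (f : Γ → ℝ) (hf : ∀ a, a ∉ S → f a = 0) (e : Γ)
    (hU : ∀ a ∈ S, a + e ∈ U) (h : Γ → ℝ) :
    ∑ a ∈ S, f a * h (a + e) = ∑ c ∈ U, f (c - e) * h c := by
  classical
  have h1 : ∑ c ∈ U, f (c - e) * h c = ∑ c ∈ S.image (· + e), f (c - e) * h c := by
    refine (Finset.sum_subset ?_ ?_).symm
    · intro c hc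
      obtain ⟨a, ha, rfl⟩ := Finset.mem_image.1 hc
      exact hU a ha
    · intro c _ hc
      rw [hf (c - e), zero_mul]
      intro h2
      exact hc (Finset.mem_image.2 ⟨c - e, h2, by abel⟩)
  rw [h1, Finset.sum_image (fun a _ b _ h => add_right_cancel h)]
  refine Finset.sum_congr rfl fun a _ => ?_
  rw [add_sub_cancel_right]

theorem sum_gg (S : Finset Γ) (f : Γ → ℝ) (X : Finset α) (χ : α → AddChar Γ Circle) :
    ∑ x ∈ X, ∑ y ∈ X, gg S f χ x y = ∑ a ∈ S, ∑ b ∈ S, f a * f b * nn X χ (a - b) := by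
  unfold gg
  have : ∀ x ∈ X, ∑ y ∈ X, ∑ a ∈ S, ∑ b ∈ S, f a * f b * rr χ x y (a - b) =
      ∑ a ∈ S, ∑ b ∈ S, ∑ y ∈ X, f a * f b * rr χ x y (a - b) := by
    intro x _
    rw [Finset.sum_comm]
    refine Finset.sum_congr rfl fun a _ => ?_
    rw [Finset.sum_comm]
  rw [Finset.sum_congr rfl this, Finset.sum_comm]
  refine Finset.sum_congr rfl fun a _ => ?_
  rw [Finset.sum_comm]
  refine Finset.sum_congr rfl fun b _ => ?_
  rw [← sum_rr, Finset.mul_sum]
  refine Finset.sum_congr rfl fun x _ => ?_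
  rw [Finset.mul_sum]

/-- `∑_{x, y} rr(e) |G(x, y)|²` -/
theorem sum_rr_gg (S : Finset Γ) (f : Γ → ℝ) (X : Finset α) (χ : α → AddChar Γ Circle) (e : Γ) :
    ∑ x ∈ X, ∑ y ∈ X, rr χ x y e * gg S f χ x y =
      ∑ b ∈ S, f b * ∑ a ∈ S, f a * ((nn X χ (a - b + e) + nn X χ (a - b - e)) / 2) := by
  unfold gg
  have h1 : ∀ x ∈ X, ∑ y ∈ X, rr χ x y e * ∑ a ∈ S, ∑ b ∈ S, f a * f b * rr χ x y (a - b) =
      ∑ b ∈ S, ∑ a ∈ S, ∑ y ∈ X, f b * (f a * ((rr χ x y (a - b + e) + rr χ x y (a - b - e)) / 2)) := by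
    intro x _
    have : ∀ y ∈ X, rr χ x y e * ∑ a ∈ S, ∑ b ∈ S, f a * f b * rr χ x y (a - b) =
        ∑ b ∈ S, ∑ a ∈ S, f b * (f a * ((rr χ x y (a - b + e) + rr χ x y (a - b - e)) / 2)) := by
      intro y _
      rw [Finset.mul_sum, Finset.sum_comm' (t' := S) (s' := fun _ => S) (by simp)]
      refine Finset.sum_congr rfl fun a _ => ?_
      rw [Finset.mul_sum]
      refine Finset.sum_congr rfl fun b _ => ?_
      rw [← rr_mul]
      ring
    rw [Finset.sum_congr rfl this, Finset.sum_comm]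
    refine Finset.sum_congr rfl fun a _ => ?_
    rw [Finset.sum_comm]
  rw [Finset.sum_congr rfl h1, Finset.sum_comm]
  refine Finset.sum_congr rfl fun b _ => ?_
  rw [Finset.sum_comm, Finset.mul_sum]
  refine Finset.sum_congr rfl fun a _ => ?_
  rw [← sum_rr, ← sum_rr, ← Finset.sum_add_distrib, Finset.sum_div, Finset.mul_sum, Finset.mul_sum]
  refine Finset.sum_congr rfl fun x _ => ?_
  rw [← Finset.sum_add_distrib, Finset.sum_div, Finset.mul_sum, Finset.mul_sum]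

/-- **The linear programming bound.** -/
theorem lp_bound (S : Finset Γ) (f : Γ → ℝ) (hf : ∀ a, a ∉ S → f a = 0) (hf0 : ∀ a, 0 ≤ f a)
    (w : J → ℝ) (hw1 : ∑ j, w j = 1) (e : J → Γ) (lam s : ℝ) (hs : s < lam)
    (hs1 : s ≤ 1)
    (hT : ∀ c, lam * f c ≤ avg w e f c) (hne : ∃ a, f a ≠ 0)
    (X : Finset α) (χ : α → AddChar Γ Circle)
    (hX : ∀ x ∈ X, ∀ y ∈ X, x ≠ y → ∑ j, w j * rr χ x y (e j) ≤ s) :
    (lam - s) * (X.card : ℝ) ≤ (1 - s) * S.card := by
  classical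
  set U : Finset Γ := S ∪ (Finset.univ.biUnion fun j => S.image (· + e j)) ∪
    (Finset.univ.biUnion fun j => S.image (· - e j)) with hUdef
  have hUS : S ⊆ U := fun a ha => by
    rw [hUdef]; exact Finset.mem_union_left _ (Finset.mem_union_left _ ha)
  have hUp : ∀ j, ∀ a ∈ S, a + e j ∈ U := fun j a ha => by
    rw [hUdef]
    refine Finset.mem_union_left _ (Finset.mem_union_right _ ?_)
    exact Finset.mem_biUnion.2 ⟨j, Finset.mem_univ _, Finset.mem_image_of_mem _ ha⟩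
  have hUm : ∀ j, ∀ a ∈ S, a + -e j ∈ U := fun j a ha => by
    rw [hUdef, ← sub_eq_add_neg]
    refine Finset.mem_union_right _ ?_
    exact Finset.mem_biUnion.2 ⟨j, Finset.mem_univ _, Finset.mem_image_of_mem (· - e j) ha⟩
  have hext : ∀ h : Γ → ℝ, ∑ a ∈ S, f a * h a = ∑ c ∈ U, f c * h c := fun h =>
    Finset.sum_subset hUS fun c _ hc => by rw [hf c hc, zero_mul]
  -- the sum over pairs
  have hj : ∀ j, ∑ x ∈ X, ∑ y ∈ X, rr χ x y (e j) * gg S f χ x y =
      ∑ b ∈ S, f b * ∑ c ∈ U, ((f (c - e j) + f (c + e j)) / 2) * nn X χ (c - b) := by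
    intro j
    rw [sum_rr_gg]
    refine Finset.sum_congr rfl fun b _ => ?_
    congr 1
    have e1 := shift_sum S U f hf (e j) (hUp j) (fun c => nn X χ (c - b))
    have e2 := shift_sum S U f hf (-e j) (hUm j) (fun c => nn X χ (c - b))
    have e3 : ∑ a ∈ S, f a * ((nn X χ (a - b + e j) + nn X χ (a - b - e j)) / 2) =
        (∑ a ∈ S, f a * nn X χ (a + e j - b) + ∑ a ∈ S, f a * nn X χ (a + -e j - b)) / 2 := by
      rw [← Finset.sum_add_distrib, Finset.sum_div]
      refine Finset.sum_congr rfl fun a _ => ?_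
      rw [show a - b + e j = a + e j - b by abel, show a - b - e j = a + -e j - b by abel]
      ring
    rw [e3, e1, e2, ← Finset.sum_add_distrib, Finset.sum_div]
    refine Finset.sum_congr rfl fun c _ => ?_
    rw [sub_neg_eq_add]
    ring
  have hg : ∑ x ∈ X, ∑ y ∈ X, gg S f χ x y =
      ∑ b ∈ S, f b * ∑ c ∈ U, f c * nn X χ (c - b) := by
    rw [sum_gg, Finset.sum_comm]
    refine Finset.sum_congr rfl fun b _ => ?_
    rw [← hext, Finset.mul_sum]
    refine Finset.sum_congr rfl fun a _ => ?_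
    ring
  have hsum : ∑ x ∈ X, ∑ y ∈ X, (∑ j, w j * rr χ x y (e j) - s) * gg S f χ x y =
      ∑ b ∈ S, f b * ∑ c ∈ U, (avg w e f c - s * f c) * nn X χ (c - b) := by
    have h1 : ∑ x ∈ X, ∑ y ∈ X, (∑ j, w j * rr χ x y (e j) - s) * gg S f χ x y =
        ∑ j, w j * ∑ x ∈ X, ∑ y ∈ X, rr χ x y (e j) * gg S f χ x y -
          s * ∑ x ∈ X, ∑ y ∈ X, gg S f χ x y := by
      have h2 : ∀ x ∈ X, ∑ y ∈ X, (∑ j, w j * rr χ x y (e j) - s) * gg S f χ x y =
          ∑ j, w j * ∑ y ∈ X, rr χ x y (e j) * gg S f χ x y - s * ∑ y ∈ X, gg S f χ x y := by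
        intro x _
        simp only [Finset.mul_sum]
        rw [Finset.sum_comm, ← Finset.sum_sub_distrib]
        refine Finset.sum_congr rfl fun y _ => ?_
        rw [sub_mul, Finset.sum_mul]
        congr 1
        refine Finset.sum_congr rfl fun j _ => ?_
        ring
      rw [Finset.sum_congr rfl h2, Finset.sum_sub_distrib, ← Finset.mul_sum]
      congr 1
      rw [Finset.sum_comm]
      refine Finset.sum_congr rfl fun j _ => ?_
      rw [Finset.mul_sum]
    rw [h1, hg]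
    simp only [hj]
    have h3 : ∑ j, w j * ∑ b ∈ S, f b * ∑ c ∈ U, ((f (c - e j) + f (c + e j)) / 2) *
        nn X χ (c - b) = ∑ b ∈ S, f b * ∑ c ∈ U, avg w e f c * nn X χ (c - b) := by
      simp only [Finset.mul_sum]
      rw [Finset.sum_comm]
      refine Finset.sum_congr rfl fun b _ => ?_
      rw [Finset.sum_comm]
      refine Finset.sum_congr rfl fun c _ => ?_
      unfold avg
      rw [Finset.sum_mul, Finset.mul_sum]
      refine Finset.sum_congr rfl fun j _ => ?_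
      ring
    rw [h3, Finset.mul_sum, ← Finset.sum_sub_distrib]
    refine Finset.sum_congr rfl fun b _ => ?_
    rw [Finset.mul_sum, Finset.mul_sum, Finset.mul_sum, Finset.mul_sum, ← Finset.sum_sub_distrib]
    refine Finset.sum_congr rfl fun c _ => ?_
    ring
  -- lower bound
  have hlow : (lam - s) * (∑ b ∈ S, f b ^ 2) * (X.card : ℝ) ^ 2 ≤
      ∑ x ∈ X, ∑ y ∈ X, (∑ j, w j * rr χ x y (e j) - s) * gg S f χ x y := by
    rw [hsum, mul_assoc, Finset.sum_mul, Finset.mul_sum]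
    refine Finset.sum_le_sum fun b hb => ?_
    have h1 : (lam - s) * f b * (X.card : ℝ) ^ 2 ≤
        ∑ c ∈ U, (avg w e f c - s * f c) * nn X χ (c - b) := by
      have h2 : (avg w e f b - s * f b) * nn X χ (b - b) ≤
          ∑ c ∈ U, (avg w e f c - s * f c) * nn X χ (c - b) := by
        refine Finset.single_le_sum (f := fun c => (avg w e f c - s * f c) * nn X χ (c - b))
          (fun c _ => mul_nonneg ?_ (nn_nonneg _ _ _)) (hUS hb)
        nlinarith [hT c, hf0 c]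
      refine le_trans ?_ h2
      rw [sub_self, nn_zero]
      refine mul_le_mul_of_nonneg_right ?_ (by positivity)
      nlinarith [hT b]
    calc (lam - s) * (f b ^ 2 * (X.card : ℝ) ^ 2) = f b * ((lam - s) * f b * (X.card : ℝ) ^ 2) := by
          ring
      _ ≤ _ := mul_le_mul_of_nonneg_left h1 (hf0 b)
  -- upper bound
  have hup : ∑ x ∈ X, ∑ y ∈ X, (∑ j, w j * rr χ x y (e j) - s) * gg S f χ x y ≤
      (X.card : ℝ) * ((1 - s) * (∑ a ∈ S, f a) ^ 2) := by
    rw [← nsmul_eq_mul, ← Finset.sum_const]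
    refine Finset.sum_le_sum fun x hx => ?_
    have h1 : ∑ y ∈ X, (∑ j, w j * rr χ x y (e j) - s) * gg S f χ x y ≤
        ∑ y ∈ X, if y = x then (1 - s) * (∑ a ∈ S, f a) ^ 2 else 0 := by
      refine Finset.sum_le_sum fun y hy => ?_
      split_ifs with h
      · subst h
        rw [gg_self]
        refine mul_le_mul_of_nonneg_right ?_ (by positivity)
        have : ∑ j, w j * rr χ y y (e j) = 1 := by
          rw [← hw1]
          refine Finset.sum_congr rfl fun j _ => ?_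
          rw [rr_eq, mul_inv_cancel, Circle.coe_one, Complex.one_re, mul_one]
        rw [this]
      · refine mul_nonpos_of_nonpos_of_nonneg ?_ (gg_nonneg _ _ _ _ _)
        linarith [hX x hx y hy (fun h2 => h h2.symm)]
    refine h1.trans ?_
    rw [Finset.sum_ite_eq' X x, if_pos hx]
  have hcs : (∑ a ∈ S, f a) ^ 2 ≤ S.card * ∑ a ∈ S, f a ^ 2 := sq_sum_le_card_mul_sum_sq
  have hpos : 0 < ∑ a ∈ S, f a ^ 2 := by
    obtain ⟨a, ha⟩ := hne
    have haS : a ∈ S := by by_contra h; exact ha (hf a h)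
    exact Finset.sum_pos' (fun _ _ => sq_nonneg _) ⟨a, haS, by positivity⟩
  rcases Nat.eq_zero_or_pos X.card with h0 | hXpos
  · rw [h0]
    have : 0 ≤ (1 - s) * (S.card : ℝ) := mul_nonneg (by linarith) (by positivity)
    simpa using this
  have hXr : (0 : ℝ) < X.card := by exact_mod_cast hXpos
  have h4 : (lam - s) * (∑ b ∈ S, f b ^ 2) * (X.card : ℝ) ^ 2 ≤
      (X.card : ℝ) * ((1 - s) * (S.card * ∑ a ∈ S, f a ^ 2)) :=
    (hlow.trans hup).trans (mul_le_mul_of_nonneg_left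
      (mul_le_mul_of_nonneg_left hcs (by linarith)) hXr.le)
  have h5 : ((lam - s) * (X.card : ℝ)) * ((∑ b ∈ S, f b ^ 2) * X.card) ≤
      ((1 - s) * S.card) * ((∑ b ∈ S, f b ^ 2) * X.card) := by nlinarith [h4]
  exact le_of_mul_le_mul_right h5 (mul_pos hpos hXr)

end Pool.Agent.Helper50.CG
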