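import Pool.Agent.Helper50.CG.Phases

/-! Orbits of cyclic groups of isometries which are kissing configurations. -/

set_option autoImplicit false

open Finset Filter Module

namespace Pool.Agent.Helper50.CG

theorem exists_isometry (F E' : Type) [NormedAddCommGroup F] [InnerProductSpace ℝ F]
    [FiniteDimensional ℝ F] [NormedAddCommGroup E'] [InnerProductSpace ℝ E']
    [FiniteDimensional ℝ E'] (h : finrank ℝ F ≤ finrank ℝ E') : Nonempty (F →ₗᵢ[ℝ] E') := by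
  let b := stdOrthonormalBasis ℝ F
  let c := stdOrthonormalBasis ℝ E'
  let f : F →ₗ[ℝ] E' := b.toBasis.constr ℝ (fun i => c (Fin.castLE h i))
  have hv : Orthonormal ℝ b.toBasis := by
    rw [OrthonormalBasis.coe_toBasis]; exact b.orthonormal
  refine ⟨f.isometryOfOrthonormal hv ?_⟩
  have : (f ∘ b.toBasis) = fun i => c (Fin.castLE h i) := by
    funext i
    exact b.toBasis.constr_basis ℝ _ i
  rw [this]
  exact c.orthonormal.comp _ (Fin.castLE_injective h)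

/-- extension of an isometry -/
theorem exists_extension (F E' : Type) [NormedAddCommGroup F] [InnerProductSpace ℝ F]
    [FiniteDimensional ℝ F] [NormedAddCommGroup E'] [InnerProductSpace ℝ E']
    [FiniteDimensional ℝ E'] (φ : F →ₗᵢ[ℝ] E') (g : F ≃ₗᵢ[ℝ] F) :
    ∃ G : E' ≃ₗᵢ[ℝ] E', ∀ v, G (φ v) = φ (g v) := by
  let S : Submodule ℝ E' := LinearMap.range φ.toLinearMap
  let L : S →ₗᵢ[ℝ] E' := (φ.comp g.toLinearIsometry).comp φ.equivRange.symm.toLinearIsometry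
  refine ⟨L.extend.toLinearIsometryEquiv rfl, fun v => ?_⟩
  have h1 : φ v ∈ S := ⟨v, rfl⟩
  have h2 : (L.extend.toLinearIsometryEquiv rfl) (φ v) = L.extend ((⟨φ v, h1⟩ : S) : E') := rfl
  rw [h2, L.extend_apply]
  show φ (g (φ.equivRange.symm ⟨φ v, h1⟩)) = φ (g v)
  congr 2
  apply φ.equivRange.injective
  rw [LinearIsometryEquiv.apply_symm_apply]
  rfl

theorem pow_map {F E' : Type} [NormedAddCommGroup F] [InnerProductSpace ℝ F]
    [NormedAddCommGroup E'] [InnerProductSpace ℝ E'] (φ : F →ₗᵢ[ℝ] E') (g : F ≃ₗᵢ[ℝ] F)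
    (G : E' ≃ₗᵢ[ℝ] E') (h : ∀ v, G (φ v) = φ (g v)) (k : ℕ) (v : F) :
    (G ^ k) (φ v) = φ ((g ^ k) v) := by
  induction k with
  | zero => simp
  | succ k ih => rw [pow_succ', pow_succ', LinearIsometryEquiv.coe_mul, Function.comp_apply, ih, h,
      LinearIsometryEquiv.coe_mul, Function.comp_apply]

/-- the diagonal isometry -/
noncomputable def diag {N : ℕ} (z : Fin N → Circle) :
    PiLp 2 (fun _ : Fin N => ℂ) ≃ₗᵢ[ℝ] PiLp 2 (fun _ : Fin N => ℂ) :=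
  LinearIsometryEquiv.piLpCongrRight 2 (fun j => rotation (z j))

theorem diag_pow {N : ℕ} (z : Fin N → Circle) (k : ℕ) (x : PiLp 2 (fun _ : Fin N => ℂ))
    (j : Fin N) : ((diag z ^ k) x) j = (z j : ℂ) ^ k * x j := by
  induction k with
  | zero => simp
  | succ k ih =>
    rw [pow_succ', LinearIsometryEquiv.coe_mul, Function.comp_apply]
    show (z j : ℂ) * ((diag z ^ k) x) j = _
    rw [ih, pow_succ']
    ring

theorem finrank_F (N : ℕ) : finrank ℝ (PiLp 2 (fun _ : Fin N => ℂ)) = 2 * N := by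
  rw [(WithLp.linearEquiv 2 ℝ (Fin N → ℂ)).finrank_eq, Module.finrank_pi_fintype]
  simp [mul_comm]

theorem growth : ∀ᶠ N : ℕ in atTop,
    (2 : ℝ) ^ ((19 / 100 : ℝ) * ((2 * N + 1 : ℕ) : ℝ)) ≤ (1302 / 1000) ^ N / 2 ∧
      (14 : ℝ) ≤ (1302 / 1000) ^ N := by
  have h0 : (2 : ℝ) ^ (38 / 100 : ℝ) < 13019 / 10000 := by
    have h1 : ((2 : ℝ) ^ (38 / 100 : ℝ)) ^ 50 < (13019 / 10000 : ℝ) ^ 50 := by
      rw [← Real.rpow_natCast, ← Real.rpow_mul (by norm_num)]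
      norm_num
    exact lt_of_pow_lt_pow_left₀ 50 (by norm_num) h1
  have h2 : Tendsto (fun N : ℕ => ((1302 / 1000 : ℝ) / (13019 / 10000)) ^ N) atTop atTop :=
    tendsto_pow_atTop_atTop_of_one_lt (by norm_num)
  have h3 : Tendsto (fun N : ℕ => (1302 / 1000 : ℝ) ^ N) atTop atTop :=
    tendsto_pow_atTop_atTop_of_one_lt (by norm_num)
  filter_upwards [h2.eventually_ge_atTop (2 * (2 : ℝ) ^ (19 / 100 : ℝ)),
    h3.eventually_ge_atTop 14] with N hN hN2
  refine ⟨?_, hN2⟩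
  have e1 : (2 : ℝ) ^ ((19 / 100 : ℝ) * ((2 * N + 1 : ℕ) : ℝ)) =
      ((2 : ℝ) ^ (38 / 100 : ℝ)) ^ N * (2 : ℝ) ^ (19 / 100 : ℝ) := by
    rw [← Real.rpow_natCast, ← Real.rpow_mul (by norm_num), ← Real.rpow_add (by norm_num)]
    congr 1
    push_cast
    ring
  rw [e1, le_div_iff₀ (by norm_num)]
  have h4 : ((2 : ℝ) ^ (38 / 100 : ℝ)) ^ N ≤ (13019 / 10000) ^ N :=
    pow_le_pow_left₀ (by positivity) h0.le N
  have h5 : (1302 / 1000 : ℝ) ^ N = ((1302 / 1000 : ℝ) / (13019 / 10000)) ^ N * (13019 / 10000) ^ N := by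
    rw [← mul_pow]; congr 1; norm_num
  rw [h5]
  have h6 : 0 < (2 : ℝ) ^ (19 / 100 : ℝ) := by positivity
  calc ((2 : ℝ) ^ (38 / 100 : ℝ)) ^ N * (2 : ℝ) ^ (19 / 100 : ℝ) * 2
      ≤ (13019 / 10000) ^ N * (2 : ℝ) ^ (19 / 100 : ℝ) * 2 := by gcongr
    _ = (2 * (2 : ℝ) ^ (19 / 100 : ℝ)) * (13019 / 10000) ^ N := by ring
    _ ≤ _ := by gcongr

theorem cyclic_orbits : ∀ᶠ n : ℕ in atTop,
    ∃ (g : EuclideanSpace ℝ (Fin n) ≃ₗᵢ[ℝ] EuclideanSpace ℝ (Fin n))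
      (x : EuclideanSpace ℝ (Fin n)) (p : ℕ), p.Prime ∧ ‖x‖ = 1 ∧ (g ^ p) x = x ∧
      (2 : ℝ) ^ ((19 / 100 : ℝ) * n) ≤ p ∧
      ∀ k : ℕ, 0 < k → k < p → inner ℝ x ((g ^ k) x) ≤ 1 / 2 := by
  have hdiv : Tendsto (fun n : ℕ => n / 2) atTop atTop :=
    Nat.tendsto_div_const_atTop (by norm_num)
  filter_upwards [hdiv.eventually growth, hdiv.eventually_ge_atTop 1] with n hn hN1
  set N := n / 2 with hN
  obtain ⟨h1, h2⟩ := hn
  -- the prime
  set m : ℕ := ⌊(1302 / 1000 : ℝ) ^ N / 2⌋₊ with hm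
  have hm7 : 7 ≤ m := Nat.le_floor (by push_cast; linarith)
  obtain ⟨p, hp, hp1, hp2⟩ := Nat.exists_prime_lt_and_le_two_mul m (by omega)
  have : Fact p.Prime := ⟨hp⟩
  have hpN : (p : ℝ) ≤ (1302 / 1000) ^ N := by
    have a1 : (m : ℝ) ≤ (1302 / 1000 : ℝ) ^ N / 2 := Nat.floor_le (by positivity)
    have a2 : (p : ℝ) ≤ 2 * m := by exact_mod_cast hp2
    linarith
  have hpn : (2 : ℝ) ^ ((19 / 100 : ℝ) * n) ≤ p := by
    have a1 : (1302 / 1000 : ℝ) ^ N / 2 < m + 1 := Nat.lt_floor_add_one _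
    have a2 : (m : ℝ) + 1 ≤ p := by exact_mod_cast hp1
    have a3 : (2 : ℝ) ^ ((19 / 100 : ℝ) * n) ≤ (2 : ℝ) ^ ((19 / 100 : ℝ) * ((2 * N + 1 : ℕ) : ℝ)) := by
      refine Real.rpow_le_rpow_of_exponent_le (by norm_num) ?_
      have : (n : ℝ) ≤ ((2 * N + 1 : ℕ) : ℝ) := by exact_mod_cast (by omega : n ≤ 2 * N + 1)
      linarith
    linarith
  obtain ⟨a, ha⟩ := exists_good (p := p) (by omega) N hpN
  set z : Fin N → Circle := fun j => ZMod.toCircle (a j) with hz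
  set x₀ : PiLp 2 (fun _ : Fin N => ℂ) := WithLp.toLp 2 (fun _ => ((1 / Real.sqrt N : ℝ) : ℂ)) with hx₀
  have hNpos : (0 : ℝ) < N := by exact_mod_cast hN1
  have hsq : (1 / Real.sqrt N) * (1 / Real.sqrt N) = 1 / N := by
    rw [div_mul_div_comm, Real.mul_self_sqrt hNpos.le]; norm_num
  have hinner : ∀ k : ℕ, inner ℝ x₀ ((diag z ^ k) x₀) = (1 / N) * ∑ j, ((z j : ℂ) ^ k).re := by
    intro k
    rw [PiLp.inner_apply, Finset.mul_sum]
    refine Finset.sum_congr rfl fun j _ => ?_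
    rw [diag_pow]
    have hx0j : x₀ j = ((1 / Real.sqrt N : ℝ) : ℂ) := rfl
    rw [hx0j, Complex.inner, Complex.conj_ofReal]
    have e1 : (z j : ℂ) ^ k * ((1 / Real.sqrt N : ℝ) : ℂ) * ((1 / Real.sqrt N : ℝ) : ℂ) =
        (((1 / Real.sqrt N) * (1 / Real.sqrt N) : ℝ) : ℂ) * (z j : ℂ) ^ k := by
      push_cast; ring
    exact (congrArg Complex.re e1).trans (by rw [Complex.re_ofReal_mul, hsq])
  have hnorm : ‖x₀‖ = 1 := by
    have := hinner 0
    rw [pow_zero, LinearIsometryEquiv.coe_one, id_eq, real_inner_self_eq_norm_sq] at this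
    simp only [pow_zero, Complex.one_re, Finset.sum_const, Finset.card_univ, Fintype.card_fin,
      nsmul_eq_mul, mul_one] at this
    rw [one_div, inv_mul_cancel₀ hNpos.ne'] at this
    have h0 := norm_nonneg x₀
    nlinarith [sq_nonneg (‖x₀‖ - 1)]
  obtain ⟨φ⟩ := exists_isometry (PiLp 2 (fun _ : Fin N => ℂ)) (EuclideanSpace ℝ (Fin n)) (by
    rw [finrank_F, finrank_euclideanSpace, Fintype.card_fin]; omega)
  obtain ⟨G, hG⟩ := exists_extension _ _ φ (diag z)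
  refine ⟨G, φ x₀, p, hp, ?_, ?_, hpn, fun k hk0 hkp => ?_⟩
  · rw [φ.norm_map, hnorm]
  · rw [pow_map φ (diag z) G hG]
    congr 1
    ext j
    rw [diag_pow]
    have : z j ^ p = 1 := by
      rw [hz]
      show ZMod.toCircle (a j) ^ p = 1
      rw [← toCircle_mul_nat]
      simp
    rw [← Circle.coe_pow, this, Circle.coe_one, one_mul]
  · rw [pow_map φ (diag z) G hG, φ.inner_map_map, hinner]
    have hk : ((k : ℕ) : ZMod p) ≠ 0 := by
      intro h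
      rw [ZMod.natCast_eq_zero_iff] at h
      exact absurd (Nat.le_of_dvd hk0 h) (not_le.2 hkp)
    have h3 := ha k hk
    have h4 : ∑ j, ((z j : ℂ) ^ k).re = ∑ j, cc ((k : ZMod p) * a j) := by
      refine Finset.sum_congr rfl fun j _ => ?_
      unfold cc
      rw [toCircle_mul_nat, Circle.coe_pow]
    rw [h4]
    calc (1 / (N : ℝ)) * ∑ j, cc ((k : ZMod p) * a j) ≤ (1 / (N : ℝ)) * (N / 2) :=
          mul_le_mul_of_nonneg_left h3 (by positivity)
      _ = 1 / 2 := by field_simp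

end Pool.Agent.Helper50.CG
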