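import Pool.Agent.Helper50.CG.Num
import Pool.Agent.Helper50.CG.Lower
import Pool.Agent.Helper50.CG.Decomp

/-! Assembly: codes with few orbits under a commutative group of isometries. -/

set_option autoImplicit false
set_option linter.unusedSectionVars false

open Finset Filter Module

namespace Pool.Agent.Helper50.CG

variable {E : Type} [NormedAddCommGroup E] [InnerProductSpace ℝ E] [FiniteDimensional ℝ E]

theorem IsDecomp.proj_sum {k : ℕ} {V : Fin k → Submodule ℝ E} (h : IsDecomp V)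
    (y : Fin k → E) (hy : ∀ i, y i ∈ V i) (i : Fin k) :
    (V i).starProjection (∑ j, y j) = y i := by
  rw [map_sum, Finset.sum_eq_single i]
  · exact Submodule.starProjection_eq_self_iff.2 (hy i)
  · intro j _ hj
    refine (Submodule.starProjection_apply_eq_zero_iff _).2 ?_
    rw [Submodule.mem_orthogonal]
    intro u hu
    exact h.orth i j (Ne.symm hj) u hu (y j) (hy j)
  · intro hh; exact absurd (Finset.mem_univ i) hh

theorem IsDecomp.prof_map {k : ℕ} {V : Fin k → Submodule ℝ E} (h : IsDecomp V)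
    (g : E ≃ₗᵢ[ℝ] E) (hg : ∀ i, ∀ x ∈ V i, g x ∈ V i) (x : E) : prof V (g x) = prof V x := by
  funext i
  unfold prof
  have h1 := h.fam.sum_projection_of_mem_iSup x (by rw [h.top]; trivial)
  have h2 : g x = ∑ j, g ((V j).starProjection x) := by
    conv_lhs => rw [← h1]
    rw [map_sum]
  rw [h2, h.proj_sum (fun j => g ((V j).starProjection x))
    (fun j => hg j _ (Submodule.starProjection_apply_mem _ _)), g.norm_map]

/-- a decomposition for which the norms of the components are constant on the orbits of a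
commutative group -/
theorem exists_decomp (G : Subgroup (E ≃ₗᵢ[ℝ] E)) (hG : ∀ g ∈ G, ∀ h ∈ G, g * h = h * g) :
    ∃ (k : ℕ) (V : Fin k → Submodule ℝ E), IsDecomp V ∧
      ∀ g ∈ G, ∀ x, prof V (g x) = prof V x := by
  obtain ⟨k, V, h1, h2, h3, h4⟩ := commuting_decomp (G : Set (E ≃ₗᵢ[ℝ] E)) (by
    intro g hg h hh x
    have := hG g hg h hh
    have h5 := congrArg (fun f : E ≃ₗᵢ[ℝ] E => f x) this
    simpa using h5)
  have hd : IsDecomp V := ⟨h1, h2, h3⟩
  exact ⟨k, V, hd, fun g hg x => hd.prof_map g (h4 g hg) x⟩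

theorem ncard_prof_le {k : ℕ} (V : Fin k → Submodule ℝ E) (G : Subgroup (E ≃ₗᵢ[ℝ] E))
    (hV : ∀ g ∈ G, ∀ x, prof V (g x) = prof V x) (X Y : Finset E)
    (hXY : ∀ x ∈ X, ∃ y ∈ Y, ∃ g ∈ G, g y = x) :
    (prof V '' (X : Set E)).ncard ≤ Y.card := by
  classical
  have h1 : prof V '' (X : Set E) ⊆ ((Y.image (prof V) : Finset (Fin k → ℝ)) : Set (Fin k → ℝ)) := by
    rintro _ ⟨x, hx, rfl⟩
    obtain ⟨y, hy, g, hg, rfl⟩ := hXY x hx
    rw [hV g hg]
    exact Finset.mem_coe.2 (Finset.mem_image_of_mem _ hy)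
  refine (Set.ncard_le_ncard h1 (Finset.finite_toSet _)).trans ?_
  rw [Set.ncard_coe_finset]
  exact Finset.card_image_le

/-- the kissing bound -/
theorem kissing_prof : ∀ᶠ n : ℕ in atTop, ∀ (k : ℕ)
    (V : Fin k → Submodule ℝ (EuclideanSpace ℝ (Fin n))), IsDecomp V →
    ∀ X : Finset (EuclideanSpace ℝ (Fin n)), (∀ x ∈ X, ‖x‖ = 1) →
      (∀ x ∈ X, ∀ y ∈ X, x ≠ y → inner ℝ x y ≤ 1 / 2) →
      (X.card : ℝ) ≤ (prof V '' (X : Set (EuclideanSpace ℝ (Fin n)))).ncard *
        (2 : ℝ) ^ ((366 / 1000 : ℝ) * n) := by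
  have hl : 0 < Real.log 2 := Real.log_pos (by norm_num)
  obtain ⟨K, hK, hb⟩ := flat_bound q0 T0 (67 / 1000) (1 / 2) (50004 / 100000) 8
    (Real.log 2 * (2 / 10000)) para0 (by norm_num) (by norm_num) (by norm_num) (by norm_num)
    (by positivity)
  have ht : Tendsto (fun n : ℕ => ((2 : ℝ) ^ (2 / 10000 : ℝ)) ^ n) atTop atTop :=
    tendsto_pow_atTop_atTop_of_one_lt (Real.one_lt_rpow (by norm_num) (by norm_num))
  filter_upwards [ht.eventually_ge_atTop K] with n hn k V hV X hX1 hX2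
  refine (hb _ k V hV X hX1 hX2).trans ?_
  refine mul_le_mul_of_nonneg_left ?_ (Nat.cast_nonneg _)
  obtain ⟨hc1, hc2⟩ := hV.card_eq
  rw [finrank_euclideanSpace, Fintype.card_fin] at hc2
  have hc1' : (lines V : ℝ) + planes V = k := by exact_mod_cast hc1
  have hc2' : (lines V : ℝ) + 2 * planes V = n := by exact_mod_cast hc2
  have h1 : (lines V : ℝ) * hp (67 / 1000) ≤ lines V * (Real.log 2 * (36 / 100)) :=
    mul_le_mul_of_nonneg_left hp_le (Nat.cast_nonneg _)
  have h2 : (planes V : ℝ) * Hq q0 T0 ≤ planes V * (Real.log 2 * (7312 / 10000)) :=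
    mul_le_mul_of_nonneg_left Hq_le (Nat.cast_nonneg _)
  have hln : (0 : ℝ) ≤ lines V := Nat.cast_nonneg _
  have hpn : (0 : ℝ) ≤ planes V := Nat.cast_nonneg _
  have h3 : (lines V : ℝ) * hp (67 / 1000) + planes V * Hq q0 T0 +
      Real.log 2 * (2 / 10000) * k ≤ Real.log 2 * ((3658 / 10000) * n) := by
    rw [← hc1', ← hc2']
    nlinarith [mul_nonneg hl.le hln, mul_nonneg hl.le hpn]
  have h4 : (2 : ℝ) ^ ((366 / 1000 : ℝ) * n) =
      ((2 : ℝ) ^ (2 / 10000 : ℝ)) ^ n * Real.exp (Real.log 2 * ((3658 / 10000) * n)) := by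
    rw [← Real.rpow_natCast, ← Real.rpow_mul (by norm_num),
      ← Real.rpow_def_of_pos (by norm_num : (0 : ℝ) < 2), ← Real.rpow_add (by norm_num)]
    congr 1
    ring
  rw [h4]
  exact mul_le_mul hn (Real.exp_le_exp.2 h3) (Real.exp_pos _).le (hK.le.trans hn)

end Pool.Agent.Helper50.CG
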