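import Pool.Agent.Helper50.CG.Geo

/-! Numerical parameters for kissing configurations. -/

set_option autoImplicit false

open Finset Module

namespace Pool.Agent.Helper50.CG

/-- the probability on `ℤ` -/
noncomputable def q0 (k : ℤ) : ℝ :=
  if k = 0 then 86198 / 100000 else if k = 1 ∨ k = -1 then 6815 / 100000
  else if k = 2 ∨ k = -2 then 86 / 100000 else 0

def T0 : Finset ℤ := {0, 1, -1, 2, -2}

theorem sum_T0 (f : ℤ → ℝ) : ∑ k ∈ T0, f k = f 0 + f 1 + f (-1) + f 2 + f (-2) := by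
  unfold T0
  rw [Finset.sum_insert (by decide), Finset.sum_insert (by decide), Finset.sum_insert (by decide),
    Finset.sum_insert (by decide), Finset.sum_singleton]
  ring

theorem mem_T0 (k : ℤ) : k ∈ T0 ↔ k = 0 ∨ k = 1 ∨ k = -1 ∨ k = 2 ∨ k = -2 := by
  unfold T0; simp

theorem q0_0 : q0 0 = 86198 / 100000 := by unfold q0; norm_num
theorem q0_1 : q0 1 = 6815 / 100000 := by unfold q0; norm_num
theorem q0_m1 : q0 (-1) = 6815 / 100000 := by unfold q0; norm_num
theorem q0_2 : q0 2 = 86 / 100000 := by unfold q0; norm_num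
theorem q0_m2 : q0 (-2) = 86 / 100000 := by unfold q0; norm_num
theorem q0_3 : q0 3 = 0 := by unfold q0; norm_num

theorem neglog_le (x L : ℝ) (hx : Real.exp (-L) ≤ x) : -Real.log x ≤ L := by
  have h := Real.log_le_log (Real.exp_pos _) hx
  rw [Real.log_exp] at h
  linarith

theorem exp_neg8 : Real.exp (-8) ≤ 86 / 100000 := by
  rw [Real.exp_neg]
  have h1 : (2.7 : ℝ) ^ 8 ≤ Real.exp 8 := by
    have : Real.exp 8 = Real.exp 1 ^ 8 := by rw [← Real.exp_nat_mul]; norm_num
    rw [this]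
    refine pow_le_pow_left₀ (by norm_num) ?_ 8
    have := Real.exp_one_gt_d9
    linarith
  have h2 : (Real.exp 8)⁻¹ ≤ ((2.7 : ℝ) ^ 8)⁻¹ := inv_anti₀ (by positivity) h1
  refine h2.trans ?_
  norm_num

theorem para0 : Para q0 T0 (67 / 1000) (50004 / 100000) 8 where
  qpos k hk := by
    rcases (mem_T0 k).1 hk with rfl | rfl | rfl | rfl | rfl
    · rw [q0_0]; norm_num
    · rw [q0_1]; norm_num
    · rw [q0_m1]; norm_num
    · rw [q0_2]; norm_num
    · rw [q0_m2]; norm_num
  qzero k hk := by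
    rw [mem_T0] at hk
    push Not at hk
    obtain ⟨h0, h1, h2, h3, h4⟩ := hk
    unfold q0
    rw [if_neg h0, if_neg (by tauto), if_neg (by tauto)]
  qone := by
    rw [sum_T0, q0_0, q0_1, q0_m1, q0_2, q0_m2]; norm_num
  ppos := by norm_num
  plt := by norm_num
  qcorr := by
    rw [sum_T0]
    have e1 : (0 : ℤ) + 1 = 1 := rfl
    have e2 : (1 : ℤ) + 1 = 2 := rfl
    have e3 : (-1 : ℤ) + 1 = 0 := rfl
    have e4 : (2 : ℤ) + 1 = 3 := rfl
    have e5 : (-2 : ℤ) + 1 = -1 := rfl
    rw [e1, e2, e3, e4, e5, q0_0, q0_1, q0_m1, q0_2, q0_m2, q0_3]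
    have h1 : (24237 / 100000 : ℝ) ≤ Real.sqrt (86198 / 100000) * Real.sqrt (6815 / 100000) := by
      rw [← Real.sqrt_mul (by norm_num)]
      exact Real.le_sqrt_of_sq_le (by norm_num)
    have h2 : (765 / 100000 : ℝ) ≤ Real.sqrt (6815 / 100000) * Real.sqrt (86 / 100000) := by
      rw [← Real.sqrt_mul (by norm_num)]
      exact Real.le_sqrt_of_sq_le (by norm_num)
    rw [Real.sqrt_zero, mul_zero]
    nlinarith [mul_comm (Real.sqrt (86198 / 100000)) (Real.sqrt (6815 / 100000)),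
      mul_comm (Real.sqrt (86 / 100000)) (Real.sqrt (6815 / 100000))]
  pcorr := by
    have h1 : (25002 / 100000 : ℝ) ≤ Real.sqrt (67 / 1000) * Real.sqrt (1 - 67 / 1000) := by
      rw [← Real.sqrt_mul (by norm_num)]
      exact Real.le_sqrt_of_sq_le (by norm_num)
    linarith
  qL k hk := by
    refine neglog_le _ _ (exp_neg8.trans ?_)
    rcases (mem_T0 k).1 hk with rfl | rfl | rfl | rfl | rfl
    · rw [q0_0]; norm_num
    · rw [q0_1]; norm_num
    · rw [q0_m1]; norm_num
    · rw [q0_2]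
    · rw [q0_m2]
  pL := neglog_le _ _ (exp_neg8.trans (by norm_num))
  pL' := neglog_le _ _ (exp_neg8.trans (by norm_num))

/-- Gibbs' inequality for one term: `R ≥ 2 ^ (-(a / b))` -/
theorem gibbs (x R : ℝ) (a b : ℕ) (hx : 0 < x) (hR : 0 < R) (hb : 0 < b)
    (h : (1 / 2 : ℝ) ^ a ≤ R ^ b) :
    x * (-Real.log x) ≤ Real.log 2 * (x * ((a : ℝ) / b)) + R - x := by
  have hb' : (0 : ℝ) < b := by exact_mod_cast hb
  have h1 : -(Real.log 2 * a) ≤ b * Real.log R := by
    have h2 := Real.log_le_log (by positivity) h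
    rw [Real.log_pow, Real.log_pow, one_div, Real.log_inv] at h2
    linarith
  have h3 : -(Real.log 2 * ((a : ℝ) / b)) ≤ Real.log R := by
    rw [← mul_div_assoc, ← neg_div, div_le_iff₀ hb']
    linarith
  have h4 : Real.log (R / x) ≤ R / x - 1 := Real.log_le_sub_one_of_pos (div_pos hR hx)
  rw [Real.log_div hR.ne' hx.ne'] at h4
  have h5 : -Real.log x ≤ Real.log 2 * ((a : ℝ) / b) + (R / x - 1) := by linarith
  have h6 := mul_le_mul_of_nonneg_left h5 hx.le
  refine h6.trans (le_of_eq ?_)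
  field_simp
  ring

theorem Hq_le : Hq q0 T0 ≤ Real.log 2 * (7312 / 10000) := by
  unfold Hq
  rw [sum_T0, q0_0, q0_1, q0_m1, q0_2, q0_m2]
  have h0 := gibbs (86198 / 100000) (862 / 1000) 3 14 (by norm_num) (by norm_num) (by norm_num)
    (by norm_num)
  have h1 := gibbs (6815 / 100000) (6793 / 100000) 97 25 (by norm_num) (by norm_num) (by norm_num)
    (by norm_num)
  have h2 := gibbs (86 / 100000) (86 / 100000) 51 5 (by norm_num) (by norm_num) (by norm_num)
    (by norm_num)
  have hl : 0 < Real.log 2 := Real.log_pos (by norm_num)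
  push_cast at h0 h1 h2
  nlinarith

theorem hp_le : hp (67 / 1000) ≤ Real.log 2 * (36 / 100) := by
  unfold hp
  have h0 := gibbs (67 / 1000) (662 / 10000) 98 25 (by norm_num) (by norm_num) (by norm_num)
    (by norm_num)
  have h1 := gibbs (1 - 67 / 1000) (9331 / 10000) 1 10 (by norm_num) (by norm_num) (by norm_num)
    (by norm_num)
  have hl : 0 < Real.log 2 := Real.log_pos (by norm_num)
  push_cast at h0 h1
  nlinarith

end Pool.Agent.Helper50.CG
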