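import Mathlib

/-! Random characters modulo a prime: many well separated vectors of phases. -/

set_option autoImplicit false

open Finset

namespace Pool.Agent.Helper50.CG

section moments

variable {p : ℕ} [Fact p.Prime]

/-- the real part of the standard character -/
noncomputable def cc (b : ZMod p) : ℝ := ((ZMod.toCircle b : Circle) : ℂ).re

theorem toCircle_mul_nat (b : ZMod p) (j : ℕ) :
    ZMod.toCircle ((j : ZMod p) * b) = ZMod.toCircle b ^ j := by
  rw [← nsmul_eq_mul, AddChar.map_nsmul_eq_pow]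

theorem sum_re_pow (j : ℕ) (hj : 0 < j) (hjp : j < p) :
    ∑ b : ZMod p, (((ZMod.toCircle b : Circle) : ℂ) ^ j).re = 0 := by
  have h1 := AddChar.sum_mulShift (R := ZMod p) (R' := ℂ) (ψ := ZMod.stdAddChar) (j : ZMod p)
    (ZMod.isPrimitive_stdAddChar p)
  have hne : (j : ZMod p) ≠ 0 := by
    intro h
    rw [ZMod.natCast_eq_zero_iff] at h
    exact absurd (Nat.le_of_dvd hj h) (not_le.2 hjp)
  rw [if_neg hne] at h1
  have h2 := congrArg Complex.re h1
  rw [Complex.re_sum] at h2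
  simp only [Nat.cast_zero, Complex.zero_re] at h2
  rw [← h2]
  refine Finset.sum_congr rfl fun b _ => ?_
  rw [ZMod.stdAddChar_apply, mul_comm, toCircle_mul_nat, Circle.coe_pow]

theorem circle_sq (z : Circle) : (z : ℂ).im ^ 2 = 1 - (z : ℂ).re ^ 2 := by
  have h := Complex.normSq_apply (z : ℂ)
  rw [Circle.normSq_coe] at h
  nlinarith

theorem re2 (z : Circle) : ((z : ℂ) ^ 2).re = 2 * (z : ℂ).re ^ 2 - 1 := by
  have h := circle_sq z
  have : ((z : ℂ) ^ 2).re = (z : ℂ).re ^ 2 - (z : ℂ).im ^ 2 := by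
    rw [pow_two, Complex.mul_re]; ring
  rw [this, h]; ring

theorem im2 (z : Circle) : ((z : ℂ) ^ 2).im = 2 * (z : ℂ).re * (z : ℂ).im := by
  rw [pow_two, Complex.mul_im]; ring

theorem re3 (z : Circle) : ((z : ℂ) ^ 3).re = 4 * (z : ℂ).re ^ 3 - 3 * (z : ℂ).re := by
  have h := circle_sq z
  rw [pow_succ, Complex.mul_re, re2, im2]
  linear_combination (-2 * (z : ℂ).re) * h

theorem im3 (z : Circle) : ((z : ℂ) ^ 3).im = (4 * (z : ℂ).re ^ 2 - 1) * (z : ℂ).im := by
  rw [pow_succ, Complex.mul_im, re2, im2]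
  ring

theorem re4 (z : Circle) : ((z : ℂ) ^ 4).re = 8 * (z : ℂ).re ^ 4 - 8 * (z : ℂ).re ^ 2 + 1 := by
  have h := circle_sq z
  rw [pow_succ, Complex.mul_re, re3, im3]
  linear_combination (-(4 * (z : ℂ).re ^ 2 - 1)) * h

theorem im4 (z : Circle) : ((z : ℂ) ^ 4).im = (8 * (z : ℂ).re ^ 3 - 4 * (z : ℂ).re) * (z : ℂ).im := by
  rw [pow_succ, Complex.mul_im, re3, im3]
  ring

theorem re5 (z : Circle) : ((z : ℂ) ^ 5).re =
    16 * (z : ℂ).re ^ 5 - 20 * (z : ℂ).re ^ 3 + 5 * (z : ℂ).re := by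
  have h := circle_sq z
  rw [pow_succ, Complex.mul_re, re4, im4]
  linear_combination (-(8 * (z : ℂ).re ^ 3 - 4 * (z : ℂ).re)) * h

theorem im5 (z : Circle) : ((z : ℂ) ^ 5).im =
    (16 * (z : ℂ).re ^ 4 - 12 * (z : ℂ).re ^ 2 + 1) * (z : ℂ).im := by
  rw [pow_succ, Complex.mul_im, re4, im4]
  ring

theorem re6 (z : Circle) : ((z : ℂ) ^ 6).re =
    32 * (z : ℂ).re ^ 6 - 48 * (z : ℂ).re ^ 4 + 18 * (z : ℂ).re ^ 2 - 1 := by
  have h := circle_sq z
  rw [pow_succ, Complex.mul_re, re5, im5]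
  linear_combination (-(16 * (z : ℂ).re ^ 4 - 12 * (z : ℂ).re ^ 2 + 1)) * h

theorem moments (hp : 6 < p) :
    ∑ b : ZMod p, cc b = 0 ∧ ∑ b : ZMod p, cc b ^ 2 = p / 2 ∧ ∑ b : ZMod p, cc b ^ 3 = 0 ∧
    ∑ b : ZMod p, cc b ^ 4 = 3 * p / 8 ∧ ∑ b : ZMod p, cc b ^ 5 = 0 ∧
    ∑ b : ZMod p, cc b ^ 6 = 5 * p / 16 := by
  have hcard : ∑ _b : ZMod p, (1 : ℝ) = p := by
    rw [Finset.sum_const, Finset.card_univ, ZMod.card]; simp
  have m1 : ∑ b : ZMod p, cc b = 0 := by
    have := sum_re_pow (p := p) 1 (by omega) (by omega)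
    simp only [pow_one] at this
    exact this
  have m2 : ∑ b : ZMod p, cc b ^ 2 = p / 2 := by
    have := sum_re_pow (p := p) 2 (by omega) (by omega)
    simp only [re2, Finset.sum_sub_distrib, ← Finset.mul_sum, hcard] at this
    show ∑ b : ZMod p, ((ZMod.toCircle b : Circle) : ℂ).re ^ 2 = p / 2
    linarith
  have m3 : ∑ b : ZMod p, cc b ^ 3 = 0 := by
    have := sum_re_pow (p := p) 3 (by omega) (by omega)
    simp only [re3, Finset.sum_sub_distrib, ← Finset.mul_sum] at this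
    unfold cc at m1 ⊢
    linarith
  have m4 : ∑ b : ZMod p, cc b ^ 4 = 3 * p / 8 := by
    have := sum_re_pow (p := p) 4 (by omega) (by omega)
    simp only [re4, Finset.sum_sub_distrib, Finset.sum_add_distrib, ← Finset.mul_sum, hcard] at this
    unfold cc at m2 ⊢
    linarith
  have m5 : ∑ b : ZMod p, cc b ^ 5 = 0 := by
    have := sum_re_pow (p := p) 5 (by omega) (by omega)
    simp only [re5, Finset.sum_sub_distrib, Finset.sum_add_distrib, ← Finset.mul_sum] at this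
    unfold cc at m1 m3 ⊢
    linarith
  have m6 : ∑ b : ZMod p, cc b ^ 6 = 5 * p / 16 := by
    have := sum_re_pow (p := p) 6 (by omega) (by omega)
    simp only [re6, Finset.sum_sub_distrib, Finset.sum_add_distrib, ← Finset.mul_sum, hcard] at this
    unfold cc at m2 m4 ⊢
    linarith
  exact ⟨m1, m2, m3, m4, m5, m6⟩

theorem abs_cc_le (b : ZMod p) : |cc b| ≤ 1 := by
  unfold cc
  refine (Complex.abs_re_le_norm _).trans (le_of_eq (Circle.norm_coe _))

theorem exp_le_poly (y : ℝ) (hy : |y| ≤ 1) :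
    Real.exp y ≤ 1 + y + y ^ 2 / 2 + y ^ 3 / 6 + y ^ 4 / 24 + y ^ 5 / 120 + 7 / 4320 * y ^ 6 := by
  have h := (abs_le.1 (Real.exp_bound hy (n := 6) (by norm_num))).2
  have h6 : |y| ^ 6 = y ^ 6 := by
    rw [show (6 : ℕ) = 2 * 3 by norm_num, pow_mul, pow_mul, sq_abs]
  rw [h6] at h
  simp only [Finset.sum_range_succ, Finset.sum_range_zero, Nat.factorial] at h
  norm_num at h
  linarith

/-- the exponential moment -/
theorem mgf (hp : 6 < p) : ∑ b : ZMod p, Real.exp (cc b) ≤ 12662 / 10000 * p := by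
  obtain ⟨m1, m2, m3, m4, m5, m6⟩ := moments (p := p) hp
  have hcard : ∑ _b : ZMod p, (1 : ℝ) = p := by
    rw [Finset.sum_const, Finset.card_univ, ZMod.card]; simp
  have h1 : ∑ b : ZMod p, Real.exp (cc b) ≤ ∑ b : ZMod p, (1 + cc b + cc b ^ 2 / 2 + cc b ^ 3 / 6 +
      cc b ^ 4 / 24 + cc b ^ 5 / 120 + 7 / 4320 * cc b ^ 6) :=
    Finset.sum_le_sum fun b _ => exp_le_poly _ (abs_cc_le b)
  refine h1.trans ?_
  simp only [Finset.sum_add_distrib, ← Finset.mul_sum, ← Finset.sum_div, hcard, m1, m2, m3, m4,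
    m5, m6]
  have : (0 : ℝ) < p := by exact_mod_cast (by omega : 0 < p)
  nlinarith

/-- few vectors are bad for a given multiplier -/
theorem bad_card (hp : 6 < p) (N : ℕ) (k : ZMod p) (hk : k ≠ 0) :
    (((Finset.univ : Finset (Fin N → ZMod p)).filter
      (fun a => (N : ℝ) / 2 < ∑ j, cc (k * a j))).card : ℝ) * Real.exp (N / 2) ≤
      (12662 / 10000 * p) ^ N := by
  have h1 : ∑ a ∈ (Finset.univ : Finset (Fin N → ZMod p)).filter
      (fun a => (N : ℝ) / 2 < ∑ j, cc (k * a j)), Real.exp (N / 2) ≤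
      ∑ a : Fin N → ZMod p, Real.exp (∑ j, cc (k * a j)) := by
    refine (Finset.sum_le_sum (fun a ha => Real.exp_le_exp.2 (Finset.mem_filter.1 ha).2.le)).trans ?_
    exact Finset.sum_le_sum_of_subset_of_nonneg (Finset.filter_subset _ _)
      (fun a _ _ => (Real.exp_pos _).le)
  rw [Finset.sum_const, nsmul_eq_mul] at h1
  refine h1.trans ?_
  have h2 : ∑ a : Fin N → ZMod p, Real.exp (∑ j, cc (k * a j)) =
      ∏ _j : Fin N, ∑ b : ZMod p, Real.exp (cc (k * b)) := by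
    rw [Finset.prod_univ_sum]
    simp only [Fintype.piFinset_univ, Real.exp_sum]
  rw [h2, Finset.prod_const, Finset.card_univ, Fintype.card_fin]
  refine pow_le_pow_left₀ (Finset.sum_nonneg fun b _ => (Real.exp_pos _).le) ?_ N
  have h3 : ∑ b : ZMod p, Real.exp (cc (k * b)) = ∑ b : ZMod p, Real.exp (cc b) :=
    Fintype.sum_bijective (fun b => k * b) (mulLeft_bijective₀ k hk) _ _ (fun b => rfl)
  rw [h3]
  exact mgf hp

end moments

/-- the union bound -/
theorem exists_good {p : ℕ} [Fact p.Prime] (hp : 6 < p) (N : ℕ)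
    (hpN : (p : ℝ) ≤ (1302 / 1000) ^ N) :
    ∃ a : Fin N → ZMod p, ∀ k : ZMod p, k ≠ 0 → ∑ j, cc (k * a j) ≤ (N : ℝ) / 2 := by
  classical
  by_contra hcon
  push Not at hcon
  have hp0 : (0 : ℝ) < p := by exact_mod_cast (by omega : 0 < p)
  have h1 : (Finset.univ : Finset (Fin N → ZMod p)) ⊆
      ((Finset.univ : Finset (ZMod p)).erase 0).biUnion (fun k =>
        (Finset.univ : Finset (Fin N → ZMod p)).filter (fun a => (N : ℝ) / 2 < ∑ j, cc (k * a j))) := by
    intro a _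
    obtain ⟨k, hk, hk2⟩ := hcon a
    exact Finset.mem_biUnion.2 ⟨k, Finset.mem_erase.2 ⟨hk, Finset.mem_univ _⟩,
      Finset.mem_filter.2 ⟨Finset.mem_univ _, hk2⟩⟩
  have h2 : (Finset.univ : Finset (Fin N → ZMod p)).card ≤
      ∑ k ∈ (Finset.univ : Finset (ZMod p)).erase 0,
        ((Finset.univ : Finset (Fin N → ZMod p)).filter
          (fun a => (N : ℝ) / 2 < ∑ j, cc (k * a j))).card :=
    (Finset.card_le_card h1).trans Finset.card_biUnion_le
  have h3 : ((p : ℝ) ^ N) * Real.exp (N / 2) ≤ (p - 1) * (12662 / 10000 * p) ^ N := by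
    have h4 : ((Finset.univ : Finset (Fin N → ZMod p)).card : ℝ) = (p : ℝ) ^ N := by
      rw [Finset.card_univ, Fintype.card_fun, ZMod.card, Fintype.card_fin]; push_cast; rfl
    rw [← h4]
    have h5 : ((Finset.univ : Finset (Fin N → ZMod p)).card : ℝ) ≤
      ∑ k ∈ (Finset.univ : Finset (ZMod p)).erase 0,
        (((Finset.univ : Finset (Fin N → ZMod p)).filter
          (fun a => (N : ℝ) / 2 < ∑ j, cc (k * a j))).card : ℝ) := by exact_mod_cast h2
    refine (mul_le_mul_of_nonneg_right h5 (Real.exp_pos _).le).trans ?_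
    rw [Finset.sum_mul]
    refine (Finset.sum_le_sum (fun k hk => bad_card hp N k (Finset.mem_erase.1 hk).1)).trans ?_
    rw [Finset.sum_const, nsmul_eq_mul, Finset.card_erase_of_mem (Finset.mem_univ _),
      Finset.card_univ, ZMod.card, Nat.cast_sub (by omega)]
    norm_num
  have he : (16486 / 10000 : ℝ) ≤ Real.exp (1 / 2) := by
    have h6 : (16486 / 10000 : ℝ) ^ 2 ≤ Real.exp (1 / 2) ^ 2 := by
      rw [← Real.exp_nat_mul]
      have := Real.exp_one_gt_d9
      norm_num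
      linarith
    exact le_of_sq_le_sq h6 (Real.exp_pos _).le
  have h7 : Real.exp ((N : ℝ) / 2) = Real.exp (1 / 2) ^ N := by
    rw [← Real.exp_nat_mul]; congr 1; ring
  have h8 : (1302 / 1000 : ℝ) ^ N * (12662 / 10000) ^ N ≤ Real.exp ((N : ℝ) / 2) := by
    rw [h7, ← mul_pow]
    refine pow_le_pow_left₀ (by norm_num) (le_trans ?_ he) N
    norm_num
  have h9 : (p : ℝ) ^ N * ((1302 / 1000 : ℝ) ^ N * (12662 / 10000) ^ N) ≤
      (p - 1) * ((12662 / 10000) ^ N * (p : ℝ) ^ N) := by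
    rw [← mul_pow (12662 / 10000 : ℝ) (p : ℝ) N]
    exact (mul_le_mul_of_nonneg_left h8 (by positivity)).trans h3
  have h10 : (1302 / 1000 : ℝ) ^ N ≤ p - 1 := by
    have h11 : 0 < (p : ℝ) ^ N * (12662 / 10000) ^ N := by positivity
    have h12 : (1302 / 1000 : ℝ) ^ N * ((p : ℝ) ^ N * (12662 / 10000) ^ N) ≤
        (p - 1) * ((p : ℝ) ^ N * (12662 / 10000) ^ N) := by nlinarith
    exact le_of_mul_le_mul_right h12 h11
  linarith

end Pool.Agent.Helper50.CG
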