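import Pool.Agent.Helper50.CG.Exist

/-! The bound on products of groups. -/

set_option autoImplicit false
set_option linter.unusedSectionVars false

open Finset

namespace Pool.Agent.Helper50.CG

variable {ι : Type} [Fintype ι] [DecidableEq ι] {G : ι → Type} [∀ i, AddCommGroup (G i)]

/-- the product probability -/
noncomputable def PP (P : ∀ i, G i → ℝ) (x : ∀ i, G i) : ℝ := ∏ i, P i (x i)

/-- the data of the alphabets -/
structure Alph (P : ∀ i, G i → ℝ) (t : ∀ i, Finset (G i)) : Prop where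
  pos : ∀ i, ∀ a ∈ t i, 0 < P i a
  zero : ∀ i, ∀ a, a ∉ t i → P i a = 0
  one : ∀ i, ∑ a ∈ t i, P i a = 1

variable {P : ∀ i, G i → ℝ} {t : ∀ i, Finset (G i)}

theorem Alph.nonneg (h : Alph P t) (i : ι) (a : G i) : 0 ≤ P i a := by
  by_cases ha : a ∈ t i
  · exact (h.pos i a ha).le
  · rw [h.zero i a ha]

theorem Alph.PP_pos (h : Alph P t) {x : ∀ i, G i} (hx : x ∈ Fintype.piFinset t) : 0 < PP P x :=
  Finset.prod_pos fun i _ => h.pos i _ (Fintype.mem_piFinset.1 hx i)

theorem Alph.PP_nonneg (h : Alph P t) (x : ∀ i, G i) : 0 ≤ PP P x :=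
  Finset.prod_nonneg fun i _ => h.nonneg i _

theorem Alph.PP_zero (h : Alph P t) {x : ∀ i, G i} (hx : x ∉ Fintype.piFinset t) : PP P x = 0 := by
  rw [Fintype.mem_piFinset] at hx
  push Not at hx
  obtain ⟨i, hi⟩ := hx
  exact Finset.prod_eq_zero (Finset.mem_univ i) (h.zero i _ hi)

theorem Alph.sum_PP (h : Alph P t) : ∑ x ∈ Fintype.piFinset t, PP P x = 1 := by
  unfold PP
  rw [← Finset.prod_univ_sum]
  simp [h.one]

/-- the correlation of the factor `i` -/
noncomputable def corr (P : ∀ i, G i → ℝ) (t : ∀ i, Finset (G i)) (e : ∀ i, G i) (i : ι) : ℝ :=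
  ∑ a ∈ t i, Real.sqrt (P i a) * Real.sqrt (P i (a + e i))

theorem Alph.corr_eq (h : Alph P t) (e : ∀ i, G i) (i : ι) :
    ∑ x ∈ Fintype.piFinset t, Real.sqrt (PP P x) * Real.sqrt (PP P (x + Pi.single i (e i))) =
      corr P t e i := by
  set g : ∀ j, G j → ℝ := fun j a => if j = i then
        Real.sqrt (P j a) * Real.sqrt (P j (a + e j)) else P j a with hg
  have h1 : ∀ x ∈ Fintype.piFinset t,
      Real.sqrt (PP P x) * Real.sqrt (PP P (x + Pi.single i (e i))) =
      ∏ j, g j (x j) := by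
    intro x _
    unfold PP
    rw [Real.sqrt_prod _ (fun j _ => h.nonneg j _), Real.sqrt_prod _ (fun j _ => h.nonneg j _),
      ← Finset.prod_mul_distrib]
    refine Finset.prod_congr rfl fun j _ => ?_
    rw [hg]
    by_cases hj : j = i
    · subst hj
      simp
    · simp only [Pi.add_apply, Pi.single_eq_of_ne hj, add_zero, if_neg hj]
      rw [Real.mul_self_sqrt (h.nonneg j _)]
  rw [Finset.sum_congr rfl h1, ← Finset.prod_univ_sum t g]
  unfold corr
  rw [Finset.prod_eq_single i]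
  · simp [hg]
  · intro j _ hj
    simp only [hg, if_neg hj]
    exact h.one j
  · intro hi; exact absurd (Finset.mem_univ i) hi

theorem Alph.sum_shift_le (h : Alph P t) (v : ∀ i, G i) (A : Finset (∀ i, G i)) :
    ∑ x ∈ A, PP P (x + v) ≤ 1 := by
  classical
  rw [← h.sum_PP]
  have h1 : ∑ x ∈ A, PP P (x + v) = ∑ y ∈ A.image (· + v), PP P y := by
    rw [Finset.sum_image (fun a _ b _ hab => add_right_cancel hab)]
  rw [h1]
  have h2 : ∑ y ∈ A.image (· + v), PP P y =
      ∑ y ∈ (A.image (· + v)).filter (· ∈ Fintype.piFinset t), PP P y := by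
    rw [Finset.sum_filter]
    refine Finset.sum_congr rfl fun y _ => ?_
    split_ifs with hy
    · rfl
    · exact h.PP_zero hy
  rw [h2]
  refine Finset.sum_le_sum_of_subset_of_nonneg ?_ (fun y _ _ => h.PP_nonneg y)
  intro y hy
  exact (Finset.mem_filter.1 hy).2

/-- the truncated function -/
noncomputable def FF (P : ∀ i, G i → ℝ) (S : Finset (∀ i, G i)) [DecidablePred (· ∈ S)]
    (x : ∀ i, G i) : ℝ := if x ∈ S then Real.sqrt (PP P x) else 0

theorem Alph.trunc (h : Alph P t) (e : ∀ i, G i) (i : ι) (S : Finset (∀ i, G i))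
    [DecidablePred (· ∈ S)]
    (hS : S ⊆ Fintype.piFinset t) (η : ℝ)
    (hη : ∑ x ∈ Fintype.piFinset t, (if x ∈ S then 0 else PP P x) ≤ η) :
    corr P t e i - 2 * Real.sqrt η ≤
      ∑ x ∈ S, FF P S x * FF P S (x + Pi.single i (e i)) := by
  classical
  set v : ∀ i, G i := Pi.single i (e i) with hv
  have hη0 : 0 ≤ η := le_trans (Finset.sum_nonneg fun x _ => by
    split_ifs
    · exact le_rfl
    · exact h.PP_nonneg x) hη
  have h0 : ∑ x ∈ S, FF P S x * FF P S (x + v) =
      ∑ x ∈ Fintype.piFinset t, FF P S x * FF P S (x + v) := by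
    refine Finset.sum_subset hS fun x _ hx => ?_
    unfold FF
    rw [if_neg hx, zero_mul]
  rw [h0, ← h.corr_eq e i]
  -- termwise
  have h1 : ∀ x ∈ Fintype.piFinset t, Real.sqrt (PP P x) * Real.sqrt (PP P (x + v)) ≤
      FF P S x * FF P S (x + v) +
      Real.sqrt (if x ∈ S then 0 else PP P x) * Real.sqrt (PP P (x + v)) +
      Real.sqrt (PP P x) * Real.sqrt (if x + v ∈ S then 0 else PP P (x + v)) := by
    intro x _
    unfold FF
    have a1 := Real.sqrt_nonneg (PP P x)
    have a2 := Real.sqrt_nonneg (PP P (x + v))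
    split_ifs <;> simp <;> nlinarith
  have cs : ∀ (u1 u2 : (∀ i, G i) → ℝ), (∀ x, 0 ≤ u1 x) → (∀ x, 0 ≤ u2 x) →
      ∑ x ∈ Fintype.piFinset t, Real.sqrt (u1 x) * Real.sqrt (u2 x) ≤
        Real.sqrt (∑ x ∈ Fintype.piFinset t, u1 x) * Real.sqrt (∑ x ∈ Fintype.piFinset t, u2 x) := by
    intro u1 u2 h1 h2
    have := Real.sum_sqrt_mul_sqrt_le (Fintype.piFinset t) h1 h2
    exact this
  have h2 : ∑ x ∈ Fintype.piFinset t,
      Real.sqrt (if x ∈ S then 0 else PP P x) * Real.sqrt (PP P (x + v)) ≤ Real.sqrt η := by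
    refine (cs (fun x => if x ∈ S then 0 else PP P x) (fun x => PP P (x + v)) (fun x => by
      show (0:ℝ) ≤ if x ∈ S then 0 else PP P x
      split_ifs
      · exact le_rfl
      · exact h.PP_nonneg x) (fun x => h.PP_nonneg _)).trans ?_
    calc _ ≤ Real.sqrt η * Real.sqrt 1 := mul_le_mul (Real.sqrt_le_sqrt hη)
          (Real.sqrt_le_sqrt (h.sum_shift_le v _)) (Real.sqrt_nonneg _) (Real.sqrt_nonneg _)
      _ = _ := by rw [Real.sqrt_one, mul_one]
  have h3 : ∑ x ∈ Fintype.piFinset t,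
      Real.sqrt (PP P x) * Real.sqrt (if x + v ∈ S then 0 else PP P (x + v)) ≤ Real.sqrt η := by
    refine (cs (fun x => PP P x) (fun x => if x + v ∈ S then 0 else PP P (x + v))
      (fun x => h.PP_nonneg _) (fun x => by
      show (0:ℝ) ≤ if x + v ∈ S then 0 else PP P (x + v)
      split_ifs
      · exact le_rfl
      · exact h.PP_nonneg _)).trans ?_
    rw [h.sum_PP, Real.sqrt_one, one_mul]
    refine Real.sqrt_le_sqrt (le_trans ?_ hη)
    have h4 : ∑ x ∈ Fintype.piFinset t, (if x + v ∈ S then 0 else PP P (x + v)) =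
        ∑ y ∈ (Fintype.piFinset t).image (· + v), (if y ∈ S then 0 else PP P y) := by
      rw [Finset.sum_image (fun a _ b _ hab => add_right_cancel hab)]
    have h5 : ∑ y ∈ (Fintype.piFinset t).image (· + v), (if y ∈ S then 0 else PP P y) =
        ∑ y ∈ ((Fintype.piFinset t).image (· + v)).filter (· ∈ Fintype.piFinset t),
          (if y ∈ S then 0 else PP P y) := by
      rw [Finset.sum_filter]
      refine Finset.sum_congr rfl fun y _ => ?_
      by_cases hy : y ∈ Fintype.piFinset t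
      · rw [if_pos hy]
      · rw [if_neg hy, h.PP_zero hy]
        simp
    rw [h4, h5]
    refine Finset.sum_le_sum_of_subset_of_nonneg (fun y hy => (Finset.mem_filter.1 hy).2)
      (fun y _ _ => ?_)
    split_ifs
    · exact le_rfl
    · exact h.PP_nonneg y
  have h6 := Finset.sum_le_sum h1
  rw [Finset.sum_add_distrib, Finset.sum_add_distrib] at h6
  linarith

end Pool.Agent.Helper50.CG
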